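import Pool.Agent.H469R10.HO.Stmts6

set_option autoImplicit false

open Finset

namespace Pool.Agent.H180R3.P469

open Pool.Agent.H469R10.HO

/-- TASK P. -/
theorem taskP : TaskP := by
  intro m hm η hη
  set lam : ℝ := lamOf m with hlam_def
  have hm1 : (1:ℝ) ≤ m := by exact_mod_cast hm
  have hlam : lam = 2 * m + 5 / 3 := by rw [hlam_def, lamOf]; ring
  have hlam3 : 3 ≤ lam := by rw [hlam]; linarith
  have hlam0 : 0 < lam := by linarith
  refine ⟨min (1 / 3) ((η / (14 * lam)) ^ 2), by positivity, ?_⟩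
  intro c hc hc0 B hB1 hB2 b hb p hp
  have hc3 : c ≤ 1 / 3 := hc0.trans (min_le_left _ _)
  have hcη : c ≤ (η / (14 * lam)) ^ 2 := hc0.trans (min_le_right _ _)
  have hp0 : (0:ℝ) < p := by exact_mod_cast hp.pos
  have hRHS : 0 ≤ (p : ℝ) ^ (-(1 / 2 + m / lam)) * (p : ℝ) ^ (-(1 / (6 * lam))) := by positivity
  rw [bet]
  split_ifs with hmem
  swap
  · rw [abs_zero]; exact hRHS
  set j := jj c lam p with hj_def
  obtain ⟨hj1, -, hux⟩ := hB1 j p hmem
  obtain ⟨-, hBall⟩ := hB2 j hj1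
  have hcard := hBall p hmem
  have hcard0 : 0 < (B j).card := card_pos.2 ⟨p, hmem⟩
  have hcard0' : (0:ℝ) < (B j).card := by exact_mod_cast hcard0
  have hj1' : (1:ℝ) ≤ j := by exact_mod_cast hj1
  -- weight
  have hlog : 1 ≤ Real.log ((1 + j) / c) := by
    rw [Real.le_log_iff_exp_le (by positivity)]
    have := Real.exp_one_lt_d9
    rw [le_div_iff₀ hc]
    nlinarith
  have hW : (1 + (j:ℝ)) * b j ^ 2 ≤ 1 := by
    refine le_trans ?_ (hb j)
    rw [WW]
    have h4 : 1 ≤ Real.log ((1 + j) / c) ^ 4 := one_le_pow₀ hlog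
    have h5 : 0 ≤ (1 + (j:ℝ)) * b j ^ 2 := by positivity
    nlinarith
  set r : ℝ := Real.sqrt (1 + j) with hr
  have hr0 : 0 < r := Real.sqrt_pos.2 (by positivity)
  have hr2 : r ^ 2 = 1 + j := Real.sq_sqrt (by positivity)
  have hbr : |b j| * r ≤ 1 := by
    have : (|b j| * r) ^ 2 ≤ 1 ^ 2 := by
      rw [mul_pow, sq_abs, hr2]; linarith
    exact le_of_sq_le_sq this (by norm_num)
  -- position
  set u : ℝ := uu c lam p with hu_def
  have hπ := Real.pi_gt_three
  have hπ4 := Real.pi_lt_d2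
  have hxx : xx j = Real.pi / 2 * j := rfl
  have hux' := abs_le.1 hux
  have hu1 : 1 ≤ u := by
    have : Real.pi / 2 * 1 ≤ xx j := by rw [hxx]; exact mul_le_mul_of_nonneg_left hj1' (by positivity)
    linarith [hux'.1]
  have h2u : 1 + (j:ℝ) ≤ 2 * u := by
    have h1 : Real.pi / 2 * j ≤ 3 / 2 * u := by rw [← hxx]; linarith [hux'.1]
    have h2 : 3 / 2 * (j:ℝ) ≤ 3 / 2 * u := by
      have : 3 / 2 * (j:ℝ) ≤ Real.pi / 2 * j := mul_le_mul_of_nonneg_right (by linarith) (by positivity)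
      linarith
    linarith
  have hru : r ≤ Real.sqrt 2 * Real.sqrt u := by
    rw [← Real.sqrt_mul (by norm_num), hr]
    exact Real.sqrt_le_sqrt h2u
  have hsu : Real.sqrt u = Real.sqrt c * (p:ℝ) ^ (1 / (2 * lam)) := by
    rw [hu_def, uu, Real.sqrt_mul hc.le, Real.sqrt_eq_rpow ((p:ℝ) ^ (1 / lam)), ← Real.rpow_mul hp0.le]
    congr 2
    field_simp
  have hsc : Real.sqrt c ≤ η / (14 * lam) := by
    rw [Real.sqrt_le_left (by positivity)]
    exact hcη
  have hs2 : Real.sqrt 2 ≤ 1.42 := by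
    rw [Real.sqrt_le_left (by norm_num)]; norm_num
  -- logarithm
  have hlp : Real.log p ≤ 6 * lam * (p:ℝ) ^ (1 / (6 * lam)) := by
    have := Real.log_le_rpow_div hp0.le (ε := 1 / (6 * lam)) (by positivity)
    calc Real.log p ≤ (p:ℝ) ^ (1 / (6 * lam)) / (1 / (6 * lam)) := this
      _ = _ := by field_simp
  have hlp0 : 0 ≤ Real.log p := Real.log_natCast_nonneg p
  -- the main chain
  have h1 : |b j / (B j).card| * (η * p) ≤ (Real.pi / 2) * r * Real.log p := by
    rw [abs_div, abs_of_pos hcard0', div_mul_eq_mul_div, div_le_iff₀ hcard0']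
    have hxr : |b j| * xx j ≤ Real.pi / 2 * r := by
      have e1 : |b j| * xx j ≤ |b j| * (Real.pi / 2 * (1 + j)) := by
        rw [hxx]
        refine mul_le_mul_of_nonneg_left (mul_le_mul_of_nonneg_left (by linarith) (by positivity)) (abs_nonneg _)
      have e2 : |b j| * (Real.pi / 2 * (1 + j)) = (|b j| * r) * (Real.pi / 2 * r) := by
        rw [← hr2]; ring
      have e3 : (|b j| * r) * (Real.pi / 2 * r) ≤ 1 * (Real.pi / 2 * r) :=
        mul_le_mul_of_nonneg_right hbr (by positivity)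
      linarith
    calc |b j| * (η * p) ≤ |b j| * ((B j).card * xx j * Real.log p) :=
          mul_le_mul_of_nonneg_left hcard (abs_nonneg _)
      _ = (|b j| * xx j) * (Real.log p * (B j).card) := by ring
      _ ≤ (Real.pi / 2 * r) * (Real.log p * (B j).card) :=
          mul_le_mul_of_nonneg_right hxr (by positivity)
      _ = _ := by ring
  have h2 : (Real.pi / 2) * r * Real.log p ≤
      (η * ((p:ℝ) ^ (1 / (2 * lam)) * (p:ℝ) ^ (1 / (6 * lam)))) := by
    set P2 : ℝ := (p:ℝ) ^ (1 / (2 * lam)) with hP2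
    set P6 : ℝ := (p:ℝ) ^ (1 / (6 * lam)) with hP6
    have hP20 : 0 < P2 := by positivity
    have hP60 : 0 < P6 := by positivity
    have e1 : r ≤ 1.42 * (η / (14 * lam) * P2) := by
      refine hru.trans ?_
      rw [hsu]
      exact mul_le_mul hs2 (mul_le_mul_of_nonneg_right hsc hP20.le) (by positivity) (by norm_num)
    calc (Real.pi / 2) * r * Real.log p
        ≤ (3.15 / 2) * (1.42 * (η / (14 * lam) * P2)) * (6 * lam * P6) := by
          apply mul_le_mul _ hlp hlp0 (by positivity)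
          exact mul_le_mul (by linarith) e1 hr0.le (by norm_num)
      _ = (3.15 / 2 * 1.42 * 6 / 14) * (η * (P2 * P6)) := by field_simp
      _ ≤ 1 * (η * (P2 * P6)) := mul_le_mul_of_nonneg_right (by norm_num) (by positivity)
      _ = _ := one_mul _
  have h3 : |b j / (B j).card| * (η * p) ≤
      ((p : ℝ) ^ (-(1 / 2 + m / lam)) * (p : ℝ) ^ (-(1 / (6 * lam)))) * (η * p) := by
    refine (h1.trans h2).trans (le_of_eq ?_)
    have e : ((p : ℝ) ^ (-(1 / 2 + m / lam)) * (p : ℝ) ^ (-(1 / (6 * lam)))) * (η * p) =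
        η * ((p : ℝ) ^ (-(1 / 2 + m / lam)) * (p : ℝ) ^ (-(1 / (6 * lam))) * (p:ℝ) ^ (1:ℝ)) := by
      rw [Real.rpow_one]; ring
    rw [e, ← Real.rpow_add hp0, ← Real.rpow_add hp0, ← Real.rpow_add hp0]
    congr 2
    rw [hlam]
    field_simp
    ring
  exact le_of_mul_le_mul_right h3 (by positivity)

end Pool.Agent.H180R3.P469
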