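import Pool.Agent.H469R10.HO.Stmts7

set_option autoImplicit false

open Finset Filter Topology

namespace Pool.Agent.H180R3.Q469

open Pool.Agent.H469R10.HO

/-- all partial weighted square sums are at most `D ^ 2` -/
def Nle (W b : ℕ → ℝ) (D : ℝ) : Prop := ∀ J : ℕ, ∑ j ∈ range J, W j * b j ^ 2 ≤ D ^ 2

lemma Nle.mono {W b : ℕ → ℝ} {D D' : ℝ} (h : Nle W b D) (h0 : 0 ≤ D) (hD : D ≤ D') : Nle W b D' :=
  fun J => (h J).trans (pow_le_pow_left₀ h0 hD 2)

lemma Nle.add {W b b' : ℕ → ℝ} (hW : ∀ j, 0 < W j) {D D' : ℝ} (h : Nle W b D) (h' : Nle W b' D')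
    (h0 : 0 ≤ D) (h0' : 0 ≤ D') : Nle W (fun j => b j + b' j) (D + D') := by
  intro J
  have hcs := sum_mul_sq_le_sq_mul_sq (range J) (fun j => Real.sqrt (W j) * b j)
    (fun j => Real.sqrt (W j) * b' j)
  have e1 : ∀ j, (Real.sqrt (W j) * b j) * (Real.sqrt (W j) * b' j) = W j * (b j * b' j) := by
    intro j
    have := Real.mul_self_sqrt (hW j).le
    calc _ = (Real.sqrt (W j) * Real.sqrt (W j)) * (b j * b' j) := by ring
      _ = _ := by rw [this]
  have e2 : ∀ (c : ℕ → ℝ) j, (Real.sqrt (W j) * c j) ^ 2 = W j * c j ^ 2 := by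
    intro c j
    rw [mul_pow, Real.sq_sqrt (hW j).le]
  simp only [e1, e2] at hcs
  have hA := h J
  have hB := h' J
  have hA0 : 0 ≤ ∑ j ∈ range J, W j * b j ^ 2 := sum_nonneg fun j _ => mul_nonneg (hW j).le (sq_nonneg _)
  have hB0 : 0 ≤ ∑ j ∈ range J, W j * b' j ^ 2 := sum_nonneg fun j _ => mul_nonneg (hW j).le (sq_nonneg _)
  have hC : ∑ j ∈ range J, W j * (b j * b' j) ≤ D * D' := by
    refine le_of_sq_le_sq (hcs.trans ?_) (mul_nonneg h0 h0')
    rw [mul_pow]
    exact mul_le_mul hA hB hB0 (sq_nonneg _)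
  have e3 : ∑ j ∈ range J, W j * (b j + b' j) ^ 2 = ∑ j ∈ range J, W j * b j ^ 2 +
      2 * ∑ j ∈ range J, W j * (b j * b' j) + ∑ j ∈ range J, W j * b' j ^ 2 := by
    rw [mul_sum, ← sum_add_distrib, ← sum_add_distrib]
    exact sum_congr rfl fun j _ => by ring
  rw [e3]
  nlinarith

lemma Nle.term {W b : ℕ → ℝ} (hW : ∀ j, 0 < W j) {D : ℝ} (h : Nle W b D) (j : ℕ) :
    W j * b j ^ 2 ≤ D ^ 2 := by
  refine le_trans ?_ (h (j + 1))
  exact single_le_sum (f := fun j => W j * b j ^ 2)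
    (fun i _ => mul_nonneg (hW i).le (sq_nonneg _)) (mem_range.2 (Nat.lt_succ_self j))

lemma Nle.abs_le {W b : ℕ → ℝ} (hW : ∀ j, 0 < W j) {D : ℝ} (h0 : 0 ≤ D) (h : Nle W b D) (j : ℕ) :
    |b j| ≤ D / Real.sqrt (W j) := by
  have h1 := h.term hW j
  have hs := Real.sqrt_pos.2 (hW j)
  rw [le_div_iff₀ hs]
  refine le_of_sq_le_sq ?_ h0
  rw [mul_pow, sq_abs, Real.sq_sqrt (hW j).le]
  linarith

lemma Nle.lim {W : ℕ → ℝ} {x : ℕ → ℕ → ℝ} {b : ℕ → ℝ} {D : ℝ}
    (hx : ∀ j, Tendsto (fun k => x k j) atTop (𝓝 (b j))) (h : ∀ᶠ k in atTop, Nle W (x k) D) :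
    Nle W b D := by
  intro J
  have : Tendsto (fun k => ∑ j ∈ range J, W j * x k j ^ 2) atTop (𝓝 (∑ j ∈ range J, W j * b j ^ 2)) :=
    tendsto_finsetSum _ fun j _ => ((hx j).pow 2).const_mul _
  exact le_of_tendsto this (h.mono fun k hk => hk J)

/-- TASK Q. -/
theorem taskQ : TaskQ := by
  intro W hW Φ ρ K hρ hK0 hK1 h0 hL
  have hL' : ∀ b b' : ℕ → ℝ, Nle W b ρ → Nle W b' ρ → ∀ D : ℝ, 0 ≤ D →
      Nle W (fun j => b j - b' j) D → Nle W (fun j => Φ b j - Φ b' j) (K * D) :=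
    fun b b' hb hb' D hD hd J => hL b b' hb hb' D hD hd J
  set x : ℕ → ℕ → ℝ := fun k => Φ^[k] (fun _ => 0) with hx_def
  have hx0 : x 0 = fun _ => 0 := rfl
  have hxs : ∀ k, x (k + 1) = Φ (x k) := fun k => Function.iterate_succ_apply' Φ k _
  have hKp : ∀ k : ℕ, 0 ≤ K ^ k := fun k => pow_nonneg hK0 k
  have hKle : ∀ k : ℕ, K ^ k ≤ 1 := fun k => pow_le_one₀ hK0 hK1.le
  have h1K : 0 ≤ 1 - K := by linarith
  have hA : ∀ k : ℕ, Nle W (x k) ((1 - K ^ k) * ρ) ∧
      Nle W (fun j => x (k + 1) j - x k j) (K ^ k * ((1 - K) * ρ)) := by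
    intro k
    induction k with
    | zero =>
      refine ⟨fun J => ?_, fun J => ?_⟩
      · rw [hx0]; simp
      · rw [hxs, hx0]
        simpa using h0 J
    | succ k ih =>
      have h1 : Nle W (x (k + 1)) ((1 - K ^ (k + 1)) * ρ) := by
        have := Nle.add hW ih.1 ih.2 (mul_nonneg (by linarith [hKle k]) hρ.le)
          (mul_nonneg (hKp k) (mul_nonneg h1K hρ.le))
        have e : (1 - K ^ k) * ρ + K ^ k * ((1 - K) * ρ) = (1 - K ^ (k + 1)) * ρ := by
          rw [pow_succ]; ring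
        rw [e] at this
        simpa using this
      refine ⟨h1, ?_⟩
      have hb1 : Nle W (x (k + 1)) ρ :=
        h1.mono (mul_nonneg (by linarith [hKle (k + 1)]) hρ.le) (by nlinarith [hKp (k + 1)])
      have hb0 : Nle W (x k) ρ :=
        ih.1.mono (mul_nonneg (by linarith [hKle k]) hρ.le) (by nlinarith [hKp k])
      have := hL' _ _ hb1 hb0 _ (mul_nonneg (hKp k) (mul_nonneg h1K hρ.le)) ih.2
      rw [← hxs, ← hxs] at this
      have e : K * (K ^ k * ((1 - K) * ρ)) = K ^ (k + 1) * ((1 - K) * ρ) := by rw [pow_succ]; ring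
      rwa [e] at this
  have hball : ∀ k, Nle W (x k) ρ := fun k =>
    (hA k).1.mono (mul_nonneg (by linarith [hKle k]) hρ.le) (by nlinarith [hKp k])
  have hB : ∀ k l : ℕ, Nle W (fun j => x (k + l) j - x k j) ((K ^ k - K ^ (k + l)) * ρ) := by
    intro k l
    induction l with
    | zero => intro J; simp
    | succ l ih =>
      have hmono : K ^ (k + l) ≤ K ^ k := pow_le_pow_of_le_one hK0 hK1.le (by omega)
      have := Nle.add hW ih (hA (k + l)).2 (mul_nonneg (by linarith) hρ.le)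
        (mul_nonneg (hKp _) (mul_nonneg h1K hρ.le))
      have e : (K ^ k - K ^ (k + l)) * ρ + K ^ (k + l) * ((1 - K) * ρ) =
          (K ^ k - K ^ (k + (l + 1))) * ρ := by
        rw [← add_assoc, pow_succ]; ring
      rw [e] at this
      have e2 : (fun j => x (k + l) j - x k j + (x (k + l + 1) j - x (k + l) j)) =
          fun j => x (k + (l + 1)) j - x k j := by
        funext j
        rw [← add_assoc]; ring
      rwa [e2] at this
  have hcau : ∀ j, ∃ y, Tendsto (fun k => x k j) atTop (𝓝 y) := by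
    intro j
    refine cauchySeq_tendsto_of_complete
      (cauchySeq_of_le_geometric K ((1 - K) * ρ / Real.sqrt (W j)) hK1 fun n => ?_)
    have := (hA n).2.abs_le hW (mul_nonneg (hKp n) (mul_nonneg h1K hρ.le)) j
    rw [dist_comm, Real.dist_eq]
    refine this.trans (le_of_eq ?_)
    ring
  choose b hb using hcau
  have hbball : Nle W b ρ := Nle.lim hb (Eventually.of_forall hball)
  have hbx : ∀ k, Nle W (fun j => b j - x k j) (K ^ k * ρ) := by
    intro k
    refine Nle.lim (x := fun l j => x (k + l) j - x k j) (fun j => ?_) (Eventually.of_forall fun l => ?_)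
    · have : Tendsto (fun l => x (k + l) j) atTop (𝓝 (b j)) := by
        have h := (tendsto_add_atTop_iff_nat (f := fun n => x n j) k).2 (hb j)
        simpa [add_comm] using h
      exact this.sub_const _
    · refine (hB k l).mono (mul_nonneg ?_ hρ.le) ?_
      · have : K ^ (k + l) ≤ K ^ k := pow_le_pow_of_le_one hK0 hK1.le (by omega)
        linarith
      · nlinarith [hKp (k + l)]
  refine ⟨b, hbball, fun j => ?_⟩
  have h2 : ∀ k, Nle W (fun j => Φ b j - b j) (2 * (K ^ k * ρ)) := by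
    intro k
    have h3 := hL' b (x k) hbball (hball k) _ (mul_nonneg (hKp k) hρ.le) (hbx k)
    have h4 : Nle W (fun j => x (k + 1) j - b j) (K ^ (k + 1) * ρ) := by
      intro J
      refine le_trans (le_of_eq (sum_congr rfl fun j _ => ?_)) (hbx (k + 1) J)
      ring
    rw [← hxs] at h3
    have h5 := Nle.add hW h3 h4 (mul_nonneg hK0 (mul_nonneg (hKp k) hρ.le))
      (mul_nonneg (hKp _) hρ.le)
    have e : (fun j => Φ b j - x (k + 1) j + (x (k + 1) j - b j)) = fun j => Φ b j - b j := by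
      funext j; ring
    rw [e] at h5
    refine h5.mono (add_nonneg (mul_nonneg hK0 (mul_nonneg (hKp k) hρ.le))
      (mul_nonneg (hKp _) hρ.le)) ?_
    rw [pow_succ]
    have : 0 ≤ K ^ k * ρ := mul_nonneg (hKp k) hρ.le
    nlinarith
  have h6 : ∀ k, |Φ b j - b j| ≤ 2 * (K ^ k * ρ) / Real.sqrt (W j) := fun k =>
    (h2 k).abs_le hW (mul_nonneg (by norm_num) (mul_nonneg (hKp k) hρ.le)) j
  have h7 : Tendsto (fun k : ℕ => 2 * (K ^ k * ρ) / Real.sqrt (W j)) atTop (𝓝 0) := by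
    have := ((tendsto_pow_atTop_nhds_zero_of_lt_one hK0 hK1).mul_const ρ).const_mul 2
    have := this.div_const (Real.sqrt (W j))
    simpa using this
  have h8 : |Φ b j - b j| ≤ 0 := ge_of_tendsto' h7 h6
  have := abs_nonpos_iff.1 h8
  linarith

end Pool.Agent.H180R3.Q469
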