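import Pool.Agent.H180R3.PFT2

set_option autoImplicit false

open Finset Filter Topology LSeries

namespace Pool.Agent.H180R3.PFT

open Pool.Agent.H336R4.PF

lemma absc_b {b : ℕ → ℂ} {θ C : ℝ} (hb : ∀ n : ℕ, 1 ≤ n → ‖b n‖ ≤ C * (n : ℝ) ^ θ) :
    abscissaOfAbsConv b ≤ ((θ + 1 : ℝ) : EReal) := by
  have := abscissaOfAbsConv_le_of_le_const_mul_rpow (f := b) (x := θ)
    ⟨C, fun n hn => hb n (Nat.one_le_iff_ne_zero.2 hn)⟩
  exact_mod_cast this

/-- the logarithmic derivative, coefficientwise -/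
lemma log_deriv_coeff {a b : ℕ → ℂ} (ha : abscissaOfAbsConv a ≤ (1 : ℝ)) {θ C : ℝ} (hθ : θ < 1 / 2)
    (hb : ∀ n : ℕ, 1 ≤ n → ‖b n‖ ≤ C * (n : ℝ) ^ θ)
    (hexp : ∀ s : ℂ, 1 < s.re → LSeries a s = Complex.exp (LSeries b s)) {n : ℕ} (hn : n ≠ 0) :
    logMul a n = (LSeries.convolution a (logMul b)) n := by
  have hbabs := absc_b hb
  have hb2 : abscissaOfAbsConv b < (2 : ℝ) :=
    hbabs.trans_lt (by exact_mod_cast (by linarith : θ + 1 < 2))
  have ha2 : abscissaOfAbsConv a < (2 : ℝ) := ha.trans_lt (by exact_mod_cast (by norm_num : (1:ℝ) < 2))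
  have hla : abscissaOfAbsConv (logMul a) < (2 : ℝ) := by rw [abscissaOfAbsConv_logMul]; exact ha2
  have hlb : abscissaOfAbsConv (logMul b) < (2 : ℝ) := by rw [abscissaOfAbsConv_logMul]; exact hb2
  have hconv : abscissaOfAbsConv (LSeries.convolution a (logMul b)) < ⊤ := by
    refine (LSeriesSummable.convolution (s := (2:ℝ))
      (LSeriesSummable_of_abscissaOfAbsConv_lt_re (by simpa using ha2))
      (LSeriesSummable_of_abscissaOfAbsConv_lt_re (by simpa using hlb))).abscissaOfAbsConv_le.trans_lt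
      (EReal.coe_lt_top _)
  refine LSeries.eq_of_LSeries_eventually_eq (hla.trans (EReal.coe_lt_top _)) hconv ?_ hn
  filter_upwards [eventually_gt_atTop (2:ℝ)] with x hx
  have hxa : abscissaOfAbsConv a < ((x:ℂ)).re := by
    rw [Complex.ofReal_re]; exact ha2.trans (by exact_mod_cast hx)
  have hxb : abscissaOfAbsConv b < ((x:ℂ)).re := by
    rw [Complex.ofReal_re]; exact hb2.trans (by exact_mod_cast hx)
  have h1 := LSeries_hasDerivAt hxa
  have h2 := (LSeries_hasDerivAt hxb).cexp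
  have h3 : LSeries a =ᶠ[𝓝 (x:ℂ)] fun s => Complex.exp (LSeries b s) := by
    have : {s : ℂ | 1 < s.re} ∈ 𝓝 (x:ℂ) :=
      (isOpen_lt continuous_const Complex.continuous_re).mem_nhds (by
        simp only [Set.mem_ofPred_eq, Complex.ofReal_re]; linarith)
    filter_upwards [this] with s hs
    exact hexp s hs
  have h4 := (h2.congr_of_eventuallyEq h3).unique h1
  have h5 : LSeries a x = Complex.exp (LSeries b x) := h3.eq_of_nhds
  rw [LSeries_convolution hxa (by rw [abscissaOfAbsConv_logMul]; exact hxb), h5]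
  rw [mul_neg, neg_inj] at h4
  exact h4.symm

lemma b_zero {a b : ℕ → ℂ} (ha : abscissaOfAbsConv a ≤ (1 : ℝ)) (ha1 : a 1 = 1) {θ C : ℝ} (hθ : θ < 1 / 2)
    (hb : ∀ n : ℕ, 1 ≤ n → ‖b n‖ ≤ C * (n : ℝ) ^ θ)
    (hexp : ∀ s : ℂ, 1 < s.re → LSeries a s = Complex.exp (LSeries b s)) {n : ℕ} (hn : 2 ≤ n)
    (hdiv : ∀ d : ℕ, d ∣ n → 2 ≤ d → a d = 0) : b n = 0 := by
  have key := log_deriv_coeff ha hθ hb hexp (n := n) (by omega)
  rw [convolution_def] at key
  simp only [logMul] at key
  rw [hdiv n dvd_rfl hn, mul_zero, sum_eq_single (1, n)] at key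
  · simp only [ha1, one_mul] at key
    have hlog : Complex.log n ≠ 0 := by
      rw [← Complex.natCast_log]
      exact_mod_cast (Real.log_pos (by exact_mod_cast (by omega : 1 < n))).ne'
    rcases mul_eq_zero.1 key.symm with h | h
    · exact absurd h hlog
    · exact h
  · rintro ⟨d, e⟩ hde hne
    rw [Nat.mem_divisorsAntidiagonal] at hde
    obtain ⟨hde1, hde2⟩ := hde
    simp only at hde1 ⊢
    have hd : 2 ≤ d := by
      rcases Nat.lt_or_ge d 2 with h | h
      · interval_cases d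
        · simp at hde1; omega
        · exfalso; apply hne; simp at hde1; simp [hde1]
      · exact h
    rw [hdiv d (Dvd.intro e hde1) hd, zero_mul]
  · intro h
    exfalso; apply h
    rw [Nat.mem_divisorsAntidiagonal]
    exact ⟨one_mul n, by omega⟩

/-- convergence of the logarithm when only finitely many primes occur -/
lemma summable_b {b : ℕ → ℂ} {θ C : ℝ} (hC : 0 ≤ C)
    (hb : ∀ n : ℕ, 1 ≤ n → ‖b n‖ ≤ C * (n : ℝ) ^ θ) (P : ℕ)
    (hsupp : ∀ n : ℕ, 1 ≤ n → b n ≠ 0 → ∃ p ∈ range (P + 1), p.Prime ∧ ∃ k : ℕ, p ^ k = n) {s : ℂ}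
    (hs : θ < s.re) : LSeriesSummable b s := by
  classical
  set g : ℕ → ℕ → ℝ := fun p n => if ∃ k : ℕ, p ^ k = n then C * (n : ℝ) ^ (θ - s.re) else 0 with hg
  have hgs : ∀ p ∈ (range (P + 1)).filter Nat.Prime, Summable (g p) := by
    intro p hp
    rw [mem_filter] at hp
    have hinj : Function.Injective fun k : ℕ => p ^ k := Nat.pow_right_injective hp.2.two_le
    rw [← hinj.summable_iff]
    · have hp0 : (0:ℝ) < p := by exact_mod_cast hp.2.pos
      have hp1 : (1:ℝ) < p := by exact_mod_cast hp.2.one_lt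
      have e : (g p) ∘ (fun k : ℕ => p ^ k) = fun k : ℕ => C * ((p : ℝ) ^ (θ - s.re)) ^ k := by
        funext k
        simp only [hg, Function.comp]
        rw [if_pos ⟨k, rfl⟩]
        congr 1
        push_cast
        rw [← Real.rpow_natCast, ← Real.rpow_natCast, ← Real.rpow_mul hp0.le, ← Real.rpow_mul hp0.le]
        ring_nf
      rw [e]
      refine (summable_geometric_of_lt_one (by positivity) ?_).mul_left C
      exact Real.rpow_lt_one_of_one_lt_of_neg hp1 (by linarith)
    · intro n hn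
      simp only [hg]
      rw [if_neg]
      rintro ⟨k, hk⟩
      exact hn ⟨k, hk⟩
  have hsum : Summable fun n => ∑ p ∈ (range (P + 1)).filter Nat.Prime, g p n := summable_sum hgs
  have hg0 : ∀ p n, 0 ≤ g p n := by
    intro p n
    simp only [hg]
    split_ifs
    · positivity
    · exact le_rfl
  refine Summable.of_norm (hsum.of_nonneg_of_le (fun _ => norm_nonneg _) fun n => ?_)
  rw [norm_term_eq]
  split_ifs with h0
  · exact sum_nonneg fun p _ => hg0 p n
  · have hn1 : 1 ≤ n := Nat.one_le_iff_ne_zero.2 h0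
    by_cases hbn : b n = 0
    · rw [hbn, norm_zero, zero_div]
      exact sum_nonneg fun p _ => hg0 p n
    · obtain ⟨p, hp, hpp, k, hk⟩ := hsupp n hn1 hbn
      refine le_trans ?_ (single_le_sum (f := fun p => g p n) (fun p _ => hg0 p n) (mem_filter.2 ⟨hp, hpp⟩))
      simp only [hg]
      rw [if_pos ⟨k, hk⟩]
      have hn0 : (0:ℝ) < n := by exact_mod_cast hn1
      rw [Real.rpow_sub hn0, ← mul_div_assoc]
      exact div_le_div_of_nonneg_right (hb n hn1) (by positivity)

end Pool.Agent.H180R3.PFT
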