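import Pool.Agent.H180R3.PFT5

set_option autoImplicit false

open Finset Filter Topology LSeries

namespace Pool.Agent.H180R3.PFT

open Pool.Agent.H336R4.PF

/-- with at least one Gamma factor the functional equation contradicts boundedness far to the left -/
theorem no_gamma (h1 : TaskP1) (h2 : TaskP2) {a : ℕ → ℂ} (h : Rap a) (ha1 : a 1 = 1)
    {Q : ℝ} (hQ : 0 < Q) {k : ℕ} {lam : Fin k → ℝ} {μ : Fin k → ℂ} {ω : ℂ} (hlam : ∀ j, 0 < lam j)
    (hμ : ∀ j, 0 ≤ (μ j).re) (hω : ‖ω‖ = 1)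
    (hfe : ∀ s : ℂ, s ≠ 0 → s ≠ 1 →
      (Q : ℂ) ^ s * (∏ j, (Complex.Gamma ((lam j : ℂ) * (1 - s) + starRingEnd ℂ (μ j)))⁻¹) * LSeries a s =
      ω * ((Q : ℂ) ^ (1 - s) * (∏ j, (Complex.Gamma ((lam j : ℂ) * s + μ j))⁻¹)
        * starRingEnd ℂ (LSeries a (1 - starRingEnd ℂ s)))) : k = 0 := by
  by_contra hk
  have hk1 : 1 ≤ k := Nat.one_le_iff_ne_zero.2 hk
  -- choose `B`
  have hev : ∀ᶠ B : ℝ in atTop, (∀ j, 3 / 2 ≤ lam j * (1 + B) + (μ j).re) ∧
      (∀ j, 1 / 2 ≤ 1 + lam j * B - (μ j).re) ∧ (2:ℝ) ^ (-(1 + B)) * AS a 0 ≤ 1 / 2 ∧ 1 ≤ B := by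
    refine Eventually.and ?_ (Eventually.and ?_ (Eventually.and ?_ (eventually_ge_atTop 1)))
    · rw [eventually_all]
      intro j
      have : Tendsto (fun B : ℝ => lam j * (1 + B) + (μ j).re) atTop atTop :=
        tendsto_atTop_add_const_right _ _
          ((tendsto_atTop_add_const_left _ _ tendsto_id).const_mul_atTop (hlam j))
      exact this.eventually_ge_atTop _
    · rw [eventually_all]
      intro j
      have : Tendsto (fun B : ℝ => 1 + lam j * B - (μ j).re) atTop atTop := by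
        have h3 : Tendsto (fun B : ℝ => lam j * B) atTop atTop := tendsto_id.const_mul_atTop (hlam j)
        have h4 := tendsto_atTop_add_const_left _ (1 - (μ j).re) h3
        refine h4.congr fun B => ?_
        ring
      exact this.eventually_ge_atTop _
    · have h3 : Tendsto (fun B : ℝ => (2:ℝ) ^ (-(1 + B)) * AS a 0) atTop (𝓝 0) := by
        have h4 : Tendsto (fun B : ℝ => (2:ℝ) ^ (-(1 + B))) atTop (𝓝 0) := by
          have h5 : Tendsto (fun B : ℝ => -(1 + B)) atTop atBot :=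
            tendsto_neg_atTop_atBot.comp (tendsto_atTop_add_const_left _ _ tendsto_id)
          exact (tendsto_rpow_atBot_of_base_gt_one 2 (by norm_num)).comp h5
        simpa using h4.mul_const (AS a 0)
      exact h3.eventually_le_const (by norm_num)
  obtain ⟨B, hA, hA', htail, hB1⟩ := hev.exists
  -- the constants
  choose c hc0 hc using fun j => ratio_lower h1 h2 (hA j) (hA' j)
  set Kb : ℝ := 2 * (Q ^ (-(1 + 2 * B)) * AS a (-B)) with hKb
  set K : ℝ := max 1 (Kb + 1) with hK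
  have hK1 : 1 ≤ K := le_max_left _ _
  have hK2 : Kb < K := lt_of_lt_of_le (by linarith) (le_max_right _ _)
  have hev2 : ∀ᶠ t : ℝ in atTop, ∀ j, 1 ≤ lam j * t + (μ j).im ∧ K ≤ c j * (lam j * t + (μ j).im) := by
    rw [eventually_all]
    intro j
    have h3 : Tendsto (fun t : ℝ => lam j * t + (μ j).im) atTop atTop :=
      tendsto_atTop_add_const_right _ _ (tendsto_id.const_mul_atTop (hlam j))
    exact (h3.eventually_ge_atTop _).and ((h3.const_mul_atTop (hc0 j)).eventually_ge_atTop _)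
  obtain ⟨t, ht⟩ := hev2.exists
  set s : ℂ := -B + t * Complex.I with hs
  have hsre : s.re = -B := by simp [hs]
  have hs0 : s ≠ 0 := by
    intro hc'
    rw [hc'] at hsre
    simp at hsre; linarith
  have hs1 : s ≠ 1 := by
    intro hc'
    rw [hc'] at hsre
    simp at hsre; linarith
  have key := congrArg norm (hfe s hs0 hs1)
  rw [norm_mul, norm_mul, norm_mul, norm_mul, norm_mul, hω, one_mul, RCLike.norm_conj,
    Complex.norm_cpow_eq_rpow_re_of_pos hQ, Complex.norm_cpow_eq_rpow_re_of_pos hQ, norm_prod, norm_prod] at key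
  have hre1 : (1 - s).re = 1 + B := by simp [hs]
  rw [hsre, hre1] at key
  -- bounds for the Dirichlet series
  have hF1 : ‖LSeries a s‖ ≤ AS a (-B) := h.norm_le hsre.ge
  have hF2 : 1 / 2 ≤ ‖LSeries a (1 - starRingEnd ℂ s)‖ := by
    have hre2 : (1 - starRingEnd ℂ s).re = 1 + B := by simp [hs]
    have h3 := h.tail (N := 2) (by norm_num) (s := 1 - starRingEnd ℂ s) (by rw [hre2]; linarith)
    rw [hre2] at h3
    have h4 : ∑ n ∈ range 2, term a (1 - starRingEnd ℂ s) n = 1 := by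
      rw [sum_range_succ, sum_range_one, term_zero, term_of_ne_zero one_ne_zero, ha1]
      simp
    rw [h4] at h3
    have h5 : ‖LSeries a (1 - starRingEnd ℂ s) - 1‖ ≤ 1 / 2 := by
      refine h3.trans ?_
      exact_mod_cast htail
    have h6 := norm_sub_norm_le (1:ℂ) (1 - LSeries a (1 - starRingEnd ℂ s))
    have h7 : (1:ℂ) - (1 - LSeries a (1 - starRingEnd ℂ s)) = LSeries a (1 - starRingEnd ℂ s) := by ring
    rw [h7, norm_one, norm_sub_rev] at h6
    linarith
  -- the Gamma factors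
  set X : Fin k → ℝ := fun j => ‖(Complex.Gamma ((lam j : ℂ) * (1 - s) + starRingEnd ℂ (μ j)))⁻¹‖ with hX
  set Z : Fin k → ℝ := fun j => ‖(Complex.Gamma ((lam j : ℂ) * s + μ j))⁻¹‖ with hZ
  have hXZ : ∀ j, K * X j ≤ Z j ∧ 0 < X j := by
    intro j
    set y : ℝ := lam j * t + (μ j).im with hy
    have e1 : (lam j : ℂ) * (1 - s) + starRingEnd ℂ (μ j) =
        ((lam j * (1 + B) + (μ j).re : ℝ) : ℂ) - (y : ℂ) * Complex.I := by
      apply Complex.ext
      · simp [hs]
      · simp [hs, hy]; ring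
    have e2 : (lam j : ℂ) * s + μ j =
        1 - ((1 + lam j * B - (μ j).re : ℝ) : ℂ) + (y : ℂ) * Complex.I := by
      apply Complex.ext
      · simp [hs]; ring
      · simp [hs, hy]
    have h3 := hc j y (ht j).1
    have h4 := (ht j).2
    rw [← hy] at h4
    rw [hX, hZ]
    simp only
    rw [e1, e2]
    set G := Complex.Gamma (((lam j * (1 + B) + (μ j).re : ℝ) : ℂ) - (y : ℂ) * Complex.I) with hG
    have hGne : G ≠ 0 := by
      apply Complex.Gamma_ne_zero_of_re_pos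
      simp
      have := hA j
      linarith
    have hGn : 0 < ‖G‖ := norm_pos_iff.2 hGne
    rw [norm_inv]
    refine ⟨?_, by positivity⟩
    rw [← div_eq_mul_inv, div_le_iff₀ hGn, mul_comm]
    exact h4.trans h3
  have hprod : K * ∏ j, X j ≤ ∏ j, Z j := by
    have h3 : ∏ j, (K * X j) ≤ ∏ j, Z j :=
      prod_le_prod (fun j _ => by have := (hXZ j).2; positivity) fun j _ => (hXZ j).1
    rw [prod_mul_distrib, prod_const, card_univ, Fintype.card_fin] at h3
    have h4 : K ≤ K ^ k := le_self_pow₀ hK1 hk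
    have h5 : 0 ≤ ∏ j, X j := prod_nonneg fun j _ => (hXZ j).2.le
    exact (mul_le_mul_of_nonneg_right h4 h5).trans h3
  have hXpos : 0 < ∏ j, X j := prod_pos fun j _ => (hXZ j).2
  have hQ1 : 0 < Q ^ (1 + B) := by positivity
  have h3 : Q ^ (1 + B) * (K * ∏ j, X j) * (1 / 2) ≤ Q ^ (-B) * (∏ j, X j) * AS a (-B) := by
    calc Q ^ (1 + B) * (K * ∏ j, X j) * (1 / 2)
        ≤ Q ^ (1 + B) * (∏ j, Z j) * ‖LSeries a (1 - starRingEnd ℂ s)‖ := by
          refine mul_le_mul (mul_le_mul_of_nonneg_left hprod hQ1.le) hF2 (by norm_num) ?_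
          exact mul_nonneg hQ1.le (prod_nonneg fun j _ => norm_nonneg _)
      _ = Q ^ (-B) * (∏ j, X j) * ‖LSeries a s‖ := key.symm
      _ ≤ _ := mul_le_mul_of_nonneg_left hF1 (by positivity)
  have h4 : (∏ j, X j) * (Q ^ (1 + B) * K) ≤ (∏ j, X j) * (2 * (Q ^ (-B) * AS a (-B))) := by
    nlinarith
  have h5 := le_of_mul_le_mul_left h4 hXpos
  have h6 : 2 * (Q ^ (-B) * AS a (-B)) = Q ^ (1 + B) * Kb := by
    rw [hKb]
    have : Q ^ (-B) = Q ^ (1 + B) * Q ^ (-(1 + 2 * B)) := by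
      rw [← Real.rpow_add hQ]; ring_nf
    rw [this]; ring
  rw [h6] at h5
  have h7 := le_of_mul_le_mul_left h5 hQ1
  linarith

/-- TASK T. -/
theorem taskT : TaskT := by
  intro h1 h2 hX a d hcls hrap n hn
  obtain ⟨ha1, -, ⟨m, G, hG, Q, k, lam, μ, ω, hQ, hFE, -⟩, hE⟩ := hcls
  have hR : Rap a := hrap
  have hfe := fun (s : ℂ) (h0 : s ≠ 0) (h1 : s ≠ 1) => hR.fe hG hX hQ hFE h0 h1
  have hk : k = 0 := no_gamma h1 h2 hR ha1 hQ hFE.1 hFE.2.1 hFE.2.2.1 hfe
  subst hk
  refine trivial_of_noGamma hR ha1 hE hQ hFE.2.2.1 (fun s h0 h1 => ?_) hn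
  have := hfe s h0 h1
  simpa using this

end Pool.Agent.H180R3.PFT
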