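import Pool.Agent.H180R3.E469b
import Pool.Agent.H180R3.E469c

set_option autoImplicit false

open Finset

namespace Pool.Agent.H180R3.E469

lemma coef_aux {ε : ℝ} (hε : 0 < ε) (hε1 : ε ≤ 1 / 100) :
    4 * (1 + ε / 50) * (1 / 2 - ε / 5) ≤ (2 - ε / 5) * (1 - ε / 100) ^ 2 := by
  have h2 : 0 < ε ^ 2 := by positivity
  have h3 : ε ^ 3 ≤ ε ^ 2 := by nlinarith
  nlinarith

lemma selberg_cells {ε : ℝ} (hε : 0 < ε) (hε1 : ε ≤ 1 / 100) {δs : ℝ} (hδ1 : δs < 1)
    {Xs : ℕ}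
    (hS : ∀ X Y : ℕ, Xs ≤ X → (X : ℝ) ^ (1 - δs) ≤ Y → Y ≤ X →
      (2 - ε / 5) * Y * Real.log X ≤
      Real.log X * ∑ p ∈ (Ioc X (X + Y)).filter Nat.Prime, Real.log p +
      ∑ x ∈ (range (X + Y + 1) ×ˢ range (X + Y + 1)).filter
        (fun x : ℕ × ℕ => x.1.Prime ∧ x.2.Prime ∧ X < x.1 * x.2 ∧ x.1 * x.2 ≤ X + Y),
        Real.log x.1 * Real.log x.2)
    {h : ℝ} (hh : 0 < h) {M : ℕ} (hM : 0 < M) (hMh : M * h ≤ ε / 100) (k : ℕ)
    (h1 : (Xs : ℝ) ≤ Real.exp (k * h) / 2)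
    (h2 : 100 / ε ≤ h * Real.exp (k * h))
    (h3 : (Real.exp (k * h)) ^ (1 - δs) ≤ h * Real.exp (k * h) / 2)
    (h4 : 100 * Real.log 2 / ε ≤ k * h) :
    (1 / 2 - ε / 5) * k * M ≤ k / 2 * ∑ i ∈ Ico k (k + M), f h i +
      ∑ m ∈ Icc (k - 1) (k + M - 1), ∑ i ∈ range (m + 1), f h i * f h (m - i) := by
  set e : ℝ := Real.exp (k * h) with he_def
  have he : 0 < e := Real.exp_pos _
  have hM1 : (1:ℝ) ≤ M := by exact_mod_cast hM
  have hhe100 : 100 ≤ h * e * ε := by rwa [div_le_iff₀ hε] at h2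
  have hh1 : h ≤ ε / 100 := by nlinarith
  have hhe : 0 < h * e := by positivity
  have hhe2 : 10000 ≤ h * e := by nlinarith
  have he4 : 4 ≤ e := by nlinarith
  set X₁ : ℕ := E h k with hX₁
  set Y₁ : ℕ := E h (k + M) - E h k with hY₁
  have hXY : X₁ + Y₁ = E h (k + M) := by
    have := E_mono hh.le (Nat.le_add_right k M)
    omega
  have hYu := block_upper hh k M (by linarith)
  have hYl := block_lower hh k M
  rw [← hY₁, ← he_def] at hYu hYl
  have hX1u : (X₁ : ℝ) ≤ e := E_le h k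
  have hX1l : e / 2 ≤ (X₁ : ℝ) := half_le_E hh.le k
  have hX1one : (1:ℝ) ≤ X₁ := by exact_mod_cast E_pos hh.le k
  have hMhe : h * e ≤ e * (M * h) := by nlinarith
  have hYl1 : e * (M * h) * (1 - ε / 100) ≤ (Y₁ : ℝ) := by nlinarith
  have hYl2 : h * e / 2 ≤ (Y₁ : ℝ) := by nlinarith
  have c1 : Xs ≤ X₁ := by exact_mod_cast h1.trans hX1l
  have c2 : (X₁ : ℝ) ^ (1 - δs) ≤ (Y₁ : ℝ) := by
    refine le_trans (Real.rpow_le_rpow (by positivity) hX1u (by linarith)) (h3.trans hYl2)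
  have c3 : Y₁ ≤ X₁ := by
    have h0 : 0 ≤ (M:ℝ) * h := by positivity
    have : (M:ℝ) * h * (1 + 2 * (M * h)) ≤ 1 / 100 := by nlinarith
    have : e * ((M:ℝ) * h * (1 + 2 * (M * h))) ≤ e * (1 / 100) := mul_le_mul_of_nonneg_left this he.le
    have : (Y₁ : ℝ) ≤ X₁ := by nlinarith
    exact_mod_cast this
  have key := hS X₁ Y₁ c1 c2 c3
  rw [hXY] at key
  set e' : ℝ := Real.exp ((k + M : ℕ) * h) with he'_def
  have he' : 0 < e' := Real.exp_pos _
  have hpairs := pairs_le hh k M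
  rw [← he'_def, ← hX₁] at hpairs
  set Q := ∑ m ∈ Icc (k - 1) (k + M - 1), ∑ i ∈ range (m + 1), f h i * f h (m - i) with hQ
  set S₁ := ∑ i ∈ Ico k (k + M), f h i with hS₁
  have hS10 : 0 ≤ S₁ := sum_nonneg fun i _ => f_nonneg hh i
  have hQ0 : 0 ≤ Q := sum_nonneg fun m _ => sum_nonneg fun i _ => mul_nonneg (f_nonneg hh _) (f_nonneg hh _)
  have hsumlog : ∑ p ∈ (Ioc X₁ (E h (k + M))).filter Nat.Prime, Real.log p ≤ e' * (2 * h * S₁) := by
    have : 2 * h * S₁ = ∑ p ∈ (Ioc X₁ (E h (k + M))).filter Nat.Prime, Real.log p / p := by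
      rw [hS₁, sum_f hh (Nat.le_add_right k M)]
      field_simp
      rfl
    rw [this, mul_sum]
    refine sum_le_sum fun p hp => ?_
    rw [mem_filter, mem_Ioc] at hp
    have hp0 : (0:ℝ) < p := by exact_mod_cast hp.2.pos
    have hpe : (p:ℝ) ≤ e' := by
      have : (p:ℝ) ≤ E h (k + M) := by exact_mod_cast hp.1.2
      exact this.trans (E_le _ _)
    have hl : 0 ≤ Real.log p := Real.log_natCast_nonneg p
    rw [← mul_div_assoc, le_div_iff₀ hp0, mul_comm]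
    exact mul_le_mul_of_nonneg_right hpe hl
  have hlogu : Real.log X₁ ≤ k * h := log_E_le hh.le k
  have hlogl : (k * h) * (1 - ε / 100) ≤ Real.log X₁ := by
    have := le_log_E hh.le k
    rw [div_le_iff₀ hε] at h4
    nlinarith
  have hlog0 : 0 ≤ Real.log X₁ := Real.log_nonneg hX1one
  have hk0 : (0:ℝ) ≤ k := Nat.cast_nonneg k
  -- upper bound for the right side
  have hR : Real.log X₁ * ∑ p ∈ (Ioc X₁ (E h (k + M))).filter Nat.Prime, Real.log p ≤
      e' * (4 * h ^ 2) * (k / 2 * S₁) := by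
    calc _ ≤ (k * h) * (e' * (2 * h * S₁)) :=
          mul_le_mul hlogu hsumlog (sum_nonneg fun p _ => Real.log_natCast_nonneg p) (by positivity)
      _ = _ := by ring
  set W := (k:ℝ) / 2 * S₁ + Q with hW
  have hW0 : 0 ≤ W := by positivity
  have hRW : (2 - ε / 5) * Y₁ * Real.log X₁ ≤ e' * (4 * h ^ 2) * W := by
    rw [hW, mul_add]
    exact key.trans (add_le_add hR hpairs)
  have he'e : e' ≤ e * (1 + ε / 50) := by
    have h3 : e' = e * Real.exp (M * h) := by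
      rw [he'_def, he_def, ← Real.exp_add]; push_cast; ring_nf
    have h4 := exp_sub_one_le (t := M * h) (by positivity) (by linarith)
    have h0 : 0 ≤ (M:ℝ) * h := by positivity
    have : (M:ℝ) * h * (1 + 2 * (M * h)) ≤ ε / 50 := by nlinarith
    rw [h3]
    exact mul_le_mul_of_nonneg_left (by linarith) he.le
  have hL : (2 - ε / 5) * (e * (M * h) * (1 - ε / 100)) * ((k * h) * (1 - ε / 100)) ≤
      (2 - ε / 5) * Y₁ * Real.log X₁ := by
    have a1 : 0 ≤ (2 - ε / 5) := by linarith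
    have a2 : 0 ≤ 1 - ε / 100 := by linarith
    have a3 : 0 ≤ (k * h) * (1 - ε / 100) := by positivity
    exact mul_le_mul (mul_le_mul_of_nonneg_left hYl1 a1) hlogl a3 (by positivity)
  have hU : e' * (4 * h ^ 2) * W ≤ e * (1 + ε / 50) * (4 * h ^ 2) * W := by
    gcongr
  have hfin := hL.trans (hRW.trans hU)
  have hfin2 : (e * h ^ 2) * ((2 - ε / 5) * (1 - ε / 100) ^ 2 * (k * M)) ≤
      (e * h ^ 2) * (4 * (1 + ε / 50) * W) := by
    calc _ = (2 - ε / 5) * (e * (M * h) * (1 - ε / 100)) * ((k * h) * (1 - ε / 100)) := by ring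
      _ ≤ _ := hfin
      _ = _ := by ring
  have hfin3 := le_of_mul_le_mul_left hfin2 (by positivity)
  have hcoef : 4 * (1 + ε / 50) * (1 / 2 - ε / 5) ≤ (2 - ε / 5) * (1 - ε / 100) ^ 2 := coef_aux hε hε1
  have hkM : 0 ≤ (k:ℝ) * M := by positivity
  have h10 : 4 * (1 + ε / 50) * ((1 / 2 - ε / 5) * k * M) ≤ 4 * (1 + ε / 50) * W := by
    calc _ = (4 * (1 + ε / 50) * (1 / 2 - ε / 5)) * (k * M) := by ring
      _ ≤ ((2 - ε / 5) * (1 - ε / 100) ^ 2) * (k * M) := mul_le_mul_of_nonneg_right hcoef hkM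
      _ ≤ _ := hfin3
  exact le_of_mul_le_mul_left h10 (by positivity)

end Pool.Agent.H180R3.E469
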