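import Mathlib

set_option autoImplicit false

namespace Pool.Agent.H180R3.Lunar

/-- Counting functions with constraints on disjoint blocks of coordinates. -/
theorem card_blocks {ι : Type*} [Fintype ι] (b s J K : ℕ)
    (e : Fin J × Fin s → ι) (he : Function.Injective e)
    (Q : Fin J → (Fin s → Fin b) → Prop)
    (hK : ∀ j, Nat.card {v : Fin s → Fin b // Q j v} ≤ K) :
    Nat.card {f : ι → Fin b // ∀ j, Q j (fun t => f (e (j, t)))} * b ^ (s * J) ≤
      K ^ J * b ^ Fintype.card ι := by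
  classical
  let C := {i : ι // i ∉ Set.range e}
  let Φ : {f : ι → Fin b // ∀ j, Q j (fun t => f (e (j, t)))} →
      (∀ j, {v : Fin s → Fin b // Q j v}) × (C → Fin b) :=
    fun f => (fun j => ⟨fun t => f.1 (e (j, t)), f.2 j⟩, fun i => f.1 i.1)
  have hΦ : Function.Injective Φ := by
    intro f g h
    apply Subtype.ext
    funext i
    by_cases hi : i ∈ Set.range e
    · obtain ⟨⟨j, t⟩, rfl⟩ := hi
      have h1 := congrFun (congrArg Prod.fst h) j
      have h2 := congrArg Subtype.val h1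
      exact congrFun h2 t
    · exact congrFun (congrArg Prod.snd h) ⟨i, hi⟩
  have h1 := Nat.card_le_card_of_injective Φ hΦ
  rw [Nat.card_prod, Nat.card_pi] at h1
  have h2 : ∏ j, Nat.card {v : Fin s → Fin b // Q j v} ≤ K ^ J := by
    calc _ ≤ ∏ _j : Fin J, K := Finset.prod_le_prod' fun j _ => hK j
      _ = K ^ J := by simp
  have hC : Fintype.card C + s * J = Fintype.card ι := by
    have h3 : Fintype.card {i : ι // i ∈ Set.range e} = s * J := by
      have := Set.card_range_of_injective he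
      simp only [Fintype.card_prod, Fintype.card_fin] at this
      rw [mul_comm s J, ← this]
    have h4 := Fintype.card_subtype_compl (fun i => i ∈ Set.range e)
    have h5 := Fintype.card_subtype_le (fun i => i ∈ Set.range e)
    have h6 : Fintype.card C = Fintype.card {i : ι // ¬ i ∈ Set.range e} := rfl
    omega
  have h7 : Nat.card (C → Fin b) = b ^ Fintype.card C := by
    rw [Nat.card_eq_fintype_card]; simp
  calc _ ≤ (K ^ J * b ^ Fintype.card C) * b ^ (s * J) := by
        refine Nat.mul_le_mul_right _ (h1.trans ?_)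
        rw [h7]
        exact Nat.mul_le_mul_right _ h2
    _ = K ^ J * b ^ Fintype.card ι := by rw [mul_assoc, ← pow_add, hC]

/-- Real form. -/
theorem card_blocks_real {ι : Type*} [Fintype ι] (b s J : ℕ) (θ : ℝ) (hb : 1 ≤ b)
    (e : Fin J × Fin s → ι) (he : Function.Injective e)
    (Q : Fin J → (Fin s → Fin b) → Prop)
    (hK : ∀ j, (Nat.card {v : Fin s → Fin b // Q j v} : ℝ) ≤ θ * (b : ℝ) ^ s) :
    (Nat.card {f : ι → Fin b // ∀ j, Q j (fun t => f (e (j, t)))} : ℝ) ≤
      θ ^ J * (b : ℝ) ^ Fintype.card ι := by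
  have hbr : (0 : ℝ) < b := by exact_mod_cast hb
  rcases Nat.eq_zero_or_pos J with rfl | hJ
  · simp only [pow_zero, one_mul]
    have h1 : Nat.card {f : ι → Fin b // ∀ j : Fin 0, Q j (fun t => f (e (j, t)))} ≤
        Nat.card (ι → Fin b) := Nat.card_le_card_of_injective _ Subtype.val_injective
    have h2 : Nat.card (ι → Fin b) = b ^ Fintype.card ι := by
      classical
      rw [Nat.card_eq_fintype_card]; simp
    rw [h2] at h1
    exact_mod_cast h1
  · obtain ⟨j0, hj0⟩ : ∃ j0 : Fin J, ∀ j, Nat.card {v : Fin s → Fin b // Q j v} ≤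
        Nat.card {v : Fin s → Fin b // Q j0 v} := by
      have : Nonempty (Fin J) := ⟨⟨0, hJ⟩⟩
      exact Finite.exists_max _
    have h1 := card_blocks b s J _ e he Q hj0
    have h2 := hK j0
    set K := Nat.card {v : Fin s → Fin b // Q j0 v}
    have h3 : (Nat.card {f : ι → Fin b // ∀ j, Q j (fun t => f (e (j, t)))} : ℝ) *
        (b : ℝ) ^ (s * J) ≤ (K : ℝ) ^ J * (b : ℝ) ^ Fintype.card ι := by exact_mod_cast h1
    have h4 : (K : ℝ) ^ J ≤ θ ^ J * (b : ℝ) ^ (s * J) := by
      calc (K : ℝ) ^ J ≤ (θ * (b : ℝ) ^ s) ^ J := pow_le_pow_left₀ (Nat.cast_nonneg _) h2 J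
        _ = θ ^ J * (b : ℝ) ^ (s * J) := by rw [mul_pow, ← pow_mul]
    have h5 : (0 : ℝ) < (b : ℝ) ^ (s * J) := by positivity
    have h6 : (0 : ℝ) < (b : ℝ) ^ Fintype.card ι := by positivity
    have h7 : (Nat.card {f : ι → Fin b // ∀ j, Q j (fun t => f (e (j, t)))} : ℝ) *
        (b : ℝ) ^ (s * J) ≤ (θ ^ J * (b : ℝ) ^ Fintype.card ι) * (b : ℝ) ^ (s * J) := by
      calc _ ≤ (K : ℝ) ^ J * (b : ℝ) ^ Fintype.card ι := h3
        _ ≤ (θ ^ J * (b : ℝ) ^ (s * J)) * (b : ℝ) ^ Fintype.card ι :=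
            mul_le_mul_of_nonneg_right h4 h6.le
        _ = _ := by ring
    exact le_of_mul_le_mul_right h7 h5

end Pool.Agent.H180R3.Lunar
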