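import Mathlib

set_option autoImplicit false

namespace Pool.Agent.H180R3.Lunar

open Finset

theorem card_fix {n b : ℕ} (T : Finset (Fin n)) (g : Fin n → Fin b) :
    ((Finset.univ : Finset (Fin n → Fin b)).filter (fun v => ∀ t ∈ T, v t = g t)).card
      = b ^ (n - T.card) := by
  classical
  have h1 : (Finset.univ : Finset (Fin n → Fin b)).filter (fun v => ∀ t ∈ T, v t = g t) =
      Fintype.piFinset (fun t => if t ∈ T then {g t} else Finset.univ) := by
    ext v
    simp only [Finset.mem_filter, Finset.mem_univ, true_and, Fintype.mem_piFinset]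
    constructor
    · intro h t
      split_ifs with ht
      · simp [h t ht]
      · simp
    · intro h t ht
      have := h t
      rw [if_pos ht] at this
      simpa using this
  rw [h1, Fintype.card_piFinset]
  have h2 : ∀ t : Fin n, (if t ∈ T then ({g t} : Finset (Fin b)) else Finset.univ).card =
      if t ∈ T then 1 else b := by
    intro t; split_ifs <;> simp
  simp only [h2]
  rw [Finset.prod_ite]
  simp only [Finset.prod_const_one, Finset.prod_const, one_mul]
  congr 1
  have h3 : (Finset.univ.filter (fun t => t ∉ T)) = Tᶜ := by ext t; simp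
  rw [h3, Finset.card_compl, Fintype.card_fin]

/-- The window condition. -/
def Win (b p : ℕ) (X : ℕ → ℕ) (v : Fin (2 * p + 1) → Fin b) : Prop :=
  (v ⟨p, by omega⟩ : ℕ) ≠ b - 1 ∨
    ∃ i, i ≤ p ∧ X i = b - 1 ∧ ∀ (i' : ℕ) (t : Fin (2 * p + 1)), i' ≤ p →
      (t : ℕ) + i = p + i' → X i' ≤ (v t : ℕ)

theorem arith_aux (b r u : ℕ) (hb : 2 ≤ b) (hr : 3 ≤ r) :
    b ^ (u + r) + r * b ^ u * b ^ 3 ≤ b ^ (u + r + 2) := by
  obtain ⟨w, rfl⟩ : ∃ w, r = 3 + w := ⟨r - 3, by omega⟩
  have h1 : w + 1 ≤ b ^ w := by
    calc w + 1 ≤ 2 ^ w := Nat.lt_two_pow_self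
      _ ≤ b ^ w := Nat.pow_le_pow_left hb w
  have h2 : b ^ w + (3 + w) ≤ b ^ (w + 2) := by
    have h3 : b ^ (w + 2) = b ^ w * b ^ 2 := pow_add _ _ _
    have h4 : 4 ≤ b ^ 2 := by nlinarith
    rw [h3]
    nlinarith
  calc b ^ (u + (3 + w)) + (3 + w) * b ^ u * b ^ 3 = b ^ u * b ^ 3 * (b ^ w + (3 + w)) := by
        rw [pow_add, pow_add]; ring
    _ ≤ b ^ u * b ^ 3 * b ^ (w + 2) := Nat.mul_le_mul_left _ h2
    _ = b ^ (u + (3 + w) + 2) := by
        rw [← pow_add, ← pow_add]; congr 1; ring

open Classical in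
theorem win_fail (b p : ℕ) (X : ℕ → ℕ) (hb : 2 ≤ b) (hp : 1 ≤ p) (h0 : 1 ≤ X 0) (hX : 1 ≤ X p) :
    b ^ (2 * p + 1) ≤
      ((Finset.univ : Finset (Fin (2 * p + 1) → Fin b)).filter (fun v => ¬ Win b p X v)).card *
        b ^ 3 := by
  classical
  set I : Finset ℕ := (Finset.range (p + 1)).filter (fun i => X i = b - 1) with hI
  have hIp : ∀ i ∈ I, i ≤ p := by
    intro i hi
    rw [hI, Finset.mem_filter, Finset.mem_range] at hi
    omega
  let top : Fin b := ⟨b - 1, by omega⟩
  let zero : Fin b := ⟨0, by omega⟩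
  set F := (Finset.univ : Finset (Fin (2 * p + 1) → Fin b)).filter (fun v => ¬ Win b p X v)
    with hF
  rcases Nat.lt_or_ge I.card 3 with hr | hr
  · -- at most two digits equal to `b - 1`
    let φ : ℕ → ℕ := fun i => if i = 0 then p else 0
    have hφ : ∀ i, φ i ≤ p := by intro i; simp only [φ]; split_ifs <;> omega
    have hφ1 : ∀ i, 1 ≤ X (φ i) := by intro i; simp only [φ]; split_ifs <;> assumption
    have hφ2 : ∀ i, φ i ≠ i := by intro i; simp only [φ]; split_ifs <;> omega
    let pos : ℕ → Fin (2 * p + 1) := fun i => ⟨p + φ i - i, by have := hφ i; omega⟩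
    let T : Finset (Fin (2 * p + 1)) := insert ⟨p, by omega⟩ (I.image pos)
    let g : Fin (2 * p + 1) → Fin b := fun t => if (t : ℕ) = p then top else zero
    have hT : T.card ≤ 3 := by
      calc T.card ≤ (I.image pos).card + 1 := Finset.card_insert_le _ _
        _ ≤ I.card + 1 := Nat.add_le_add_right Finset.card_image_le _
        _ ≤ 3 := by omega
    have hsub : (Finset.univ : Finset (Fin (2 * p + 1) → Fin b)).filter
        (fun v => ∀ t ∈ T, v t = g t) ⊆ F := by
      intro v hv
      rw [Finset.mem_filter] at hv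
      rw [hF, Finset.mem_filter]
      refine ⟨Finset.mem_univ _, ?_⟩
      rintro (h | ⟨i, hi, hXi, h⟩)
      · apply h
        have := hv.2 ⟨p, by omega⟩ (Finset.mem_insert_self _ _)
        rw [this]
        simp [g, top]
      · have hiI : i ∈ I := by
          rw [hI, Finset.mem_filter, Finset.mem_range]; exact ⟨by omega, hXi⟩
        have h1 := h (φ i) (pos i) (hφ i) (by simp only [pos]; have := hφ i; omega)
        have h2 := hv.2 (pos i) (Finset.mem_insert_of_mem (Finset.mem_image_of_mem _ hiI))
        rw [h2] at h1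
        have h3 : ((pos i : Fin (2 * p + 1)) : ℕ) ≠ p := by
          simp only [pos]; have := hφ i; have := hφ2 i; omega
        have h4 : (g (pos i) : ℕ) = 0 := by
          simp only [g, if_neg h3, zero]
        have := hφ1 i
        omega
    have hc := Finset.card_le_card hsub
    rw [card_fix] at hc
    have hTn : T.card ≤ 2 * p + 1 := by
      calc T.card ≤ 3 := hT
        _ ≤ 2 * p + 1 := by omega
    calc b ^ (2 * p + 1) = b ^ (2 * p + 1 - T.card) * b ^ T.card := by
          rw [← pow_add]; congr 1; omega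
      _ ≤ F.card * b ^ 3 := Nat.mul_le_mul hc (Nat.pow_le_pow_right (by omega) hT)
  · -- at least three
    let pos : ℕ → ℕ → Fin (2 * p + 1) := fun i i' =>
      if h : i' ≤ p then ⟨p + i' - i, by omega⟩ else ⟨p, by omega⟩
    have hTop : ((Finset.univ : Finset (Fin (2 * p + 1) → Fin b)).filter
        (fun v => ∀ t ∈ ({⟨p, by omega⟩} : Finset (Fin (2 * p + 1))), v t = top)).card =
        b ^ (2 * p) := by
      rw [card_fix]; simp
    have hfix : ∀ i ∈ I, ((Finset.univ : Finset (Fin (2 * p + 1) → Fin b)).filter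
        (fun v => ∀ t ∈ I.image (pos i), v t = top)).card = b ^ (2 * p + 1 - I.card) := by
      intro i hi
      rw [card_fix]
      congr 2
      apply Finset.card_image_of_injOn
      intro x hx y hy hxy
      have hx' := hIp x hx
      have hy' := hIp y hy
      have hi' := hIp i hi
      simp only [pos, dif_pos hx', dif_pos hy', Fin.mk.injEq] at hxy
      omega
    have hsub : (Finset.univ : Finset (Fin (2 * p + 1) → Fin b)).filter
        (fun v => ∀ t ∈ ({⟨p, by omega⟩} : Finset (Fin (2 * p + 1))), v t = top) ⊆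
        F ∪ I.biUnion (fun i => (Finset.univ : Finset (Fin (2 * p + 1) → Fin b)).filter
        (fun v => ∀ t ∈ I.image (pos i), v t = top)) := by
      intro v hv
      rw [Finset.mem_filter] at hv
      have hvp := hv.2 ⟨p, by omega⟩ (Finset.mem_singleton_self _)
      rw [Finset.mem_union]
      by_cases hW : Win b p X v
      · right
        rcases hW with h | ⟨i, hi, hXi, h⟩
        · exact absurd (by rw [hvp]) h
        · have hiI : i ∈ I := by
            rw [hI, Finset.mem_filter, Finset.mem_range]; exact ⟨by omega, hXi⟩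
          rw [Finset.mem_biUnion]
          refine ⟨i, hiI, ?_⟩
          rw [Finset.mem_filter]
          refine ⟨Finset.mem_univ _, ?_⟩
          intro t ht
          rw [Finset.mem_image] at ht
          obtain ⟨i', hi', rfl⟩ := ht
          have hi'p := hIp i' hi'
          have h1 := h i' (pos i i') hi'p (by simp only [pos, dif_pos hi'p]; omega)
          have h2 : X i' = b - 1 := by
            rw [hI, Finset.mem_filter] at hi'
            exact hi'.2
          rw [h2] at h1
          apply Fin.ext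
          have h3 := (v (pos i i')).isLt
          simp only [top]
          omega
      · left
        rw [hF, Finset.mem_filter]
        exact ⟨Finset.mem_univ _, hW⟩
    have hc := (Finset.card_le_card hsub).trans
      ((Finset.card_union_le _ _).trans (Nat.add_le_add_left Finset.card_biUnion_le _))
    rw [hTop, Finset.sum_congr rfl hfix, Finset.sum_const, smul_eq_mul] at hc
    have hIc : I.card ≤ p + 1 := by
      calc I.card ≤ (Finset.range (p + 1)).card := Finset.card_filter_le _ _
        _ = p + 1 := Finset.card_range _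
    obtain ⟨u, hu⟩ : ∃ u, 2 * p + 1 = u + I.card := ⟨2 * p + 1 - I.card, by omega⟩
    have hu' : 2 * p + 1 - I.card = u := by omega
    rw [hu'] at hc
    have ha := arith_aux b I.card u hb hr
    have h1 : b ^ (u + I.card + 2) = b ^ (2 * p) * b ^ 3 := by
      rw [← pow_add]; congr 1; omega
    rw [h1] at ha
    have h5 : b ^ (2 * p + 1) = b ^ (u + I.card) := congrArg (b ^ ·) hu
    have h2 := Nat.mul_le_mul_right (b ^ 3) hc
    rw [add_mul] at h2
    have h6 : b ^ (u + I.card) ≤ F.card * b ^ 3 := by omega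
    exact h5.le.trans h6

theorem win_count (b p : ℕ) (X : ℕ → ℕ) (hb : 2 ≤ b) (hp : 1 ≤ p) (h0 : 1 ≤ X 0)
    (hX : 1 ≤ X p) :
    (Nat.card {v : Fin (2 * p + 1) → Fin b // Win b p X v} : ℝ) ≤
      (1 - 1 / (b : ℝ) ^ 3) * (b : ℝ) ^ (2 * p + 1) := by
  classical
  have h1 := win_fail b p X hb hp h0 hX
  have h2 : Nat.card {v : Fin (2 * p + 1) → Fin b // Win b p X v} =
      ((Finset.univ : Finset (Fin (2 * p + 1) → Fin b)).filter (fun v => Win b p X v)).card := by
    rw [Nat.card_eq_fintype_card, Fintype.card_subtype]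
  have h3 := Finset.card_filter_add_card_filter_not
    (s := (Finset.univ : Finset (Fin (2 * p + 1) → Fin b))) (fun v => Win b p X v)
  rw [Finset.card_univ, Fintype.card_fun, Fintype.card_fin, Fintype.card_fin] at h3
  rw [h2]
  have hbr : (0 : ℝ) < (b : ℝ) ^ 3 := by
    have : (0 : ℝ) < b := by exact_mod_cast (by omega : 0 < b)
    positivity
  have h1' : (b : ℝ) ^ (2 * p + 1) / (b : ℝ) ^ 3 ≤
      (((Finset.univ : Finset (Fin (2 * p + 1) → Fin b)).filter
        (fun v => ¬ Win b p X v)).card : ℝ) := by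
    rw [div_le_iff₀ hbr]
    exact_mod_cast h1
  have h3' : (((Finset.univ : Finset (Fin (2 * p + 1) → Fin b)).filter
        (fun v => Win b p X v)).card : ℝ) + (((Finset.univ : Finset (Fin (2 * p + 1) → Fin b)).filter
        (fun v => ¬ Win b p X v)).card : ℝ) = (b : ℝ) ^ (2 * p + 1) := by
    exact_mod_cast h3
  have h4 : (1 - 1 / (b : ℝ) ^ 3) * (b : ℝ) ^ (2 * p + 1) =
      (b : ℝ) ^ (2 * p + 1) - (b : ℝ) ^ (2 * p + 1) / (b : ℝ) ^ 3 := by ring
  rw [h4]
  linarith

end Pool.Agent.H180R3.Lunar
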