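import Mathlib
import Pool.Agent.H180R3.LunarCount
import Pool.Agent.H180R3.LunarWin

set_option autoImplicit false

namespace Pool.Agent.H180R3.Lunar

open Finset

/-- the digit of `n` at position `i` -/
def dg (b n i : ℕ) : ℕ := n / b ^ i % b

theorem dg_lt {b : ℕ} (hb : 2 ≤ b) (n i : ℕ) : dg b n i < b := Nat.mod_lt _ (by omega)

/-- the digit as an element of `Fin b` -/
def D (b : ℕ) (hb : 2 ≤ b) (n i : ℕ) : Fin b := ⟨dg b n i, dg_lt hb n i⟩

theorem dg_eq_zero_of_lt {b n i : ℕ} (h : n < b ^ i) : dg b n i = 0 := by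
  rw [dg, Nat.div_eq_of_lt h, Nat.zero_mod]

theorem eq_of_dg {b k n n' : ℕ} (hn : n < b ^ k) (hn' : n' < b ^ k)
    (h : ∀ i, i < k → dg b n i = dg b n' i) : n = n' := by
  have h1 : (⟨n, hn⟩ : Fin (b ^ k)) = ⟨n', hn'⟩ := by
    apply (finFunctionFinEquiv (m := b) (n := k)).symm.injective
    funext i
    apply Fin.ext
    exact h i i.isLt
  exact congrArg Fin.val h1

/-- `n` is the lunar product of `x` and `y` -/
def LP (b n x y : ℕ) : Prop :=
  (∀ i j, min (dg b x i) (dg b y j) ≤ dg b n (i + j)) ∧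
    ∀ m, ∃ i j, i + j = m ∧ dg b n m ≤ dg b x i ∧ dg b n m ≤ dg b y j

theorem LP.symm {b n x y : ℕ} (h : LP b n x y) : LP b n y x := by
  refine ⟨fun i j => ?_, fun m => ?_⟩
  · rw [min_comm, add_comm]; exact h.1 j i
  · obtain ⟨i, j, h1, h2, h3⟩ := h.2 m
    exact ⟨j, i, by omega, h3, h2⟩

theorem LP_of_eq {b n x y : ℕ} (h : ∀ m : ℕ, n / b ^ m % b =
    (Finset.range (m + 1)).sup (fun i => min (x / b ^ i % b) (y / b ^ (m - i) % b))) :
    LP b n x y := by
  refine ⟨fun i j => ?_, fun m => ?_⟩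
  · have h1 := h (i + j)
    have h2 := Finset.le_sup (f := fun t => min (x / b ^ t % b) (y / b ^ (i + j - t) % b))
      (show i ∈ Finset.range (i + j + 1) by rw [Finset.mem_range]; omega)
    rw [← h1] at h2
    simp only [Nat.add_sub_cancel_left] at h2
    exact h2
  · obtain ⟨i, hi, h1⟩ := Finset.exists_mem_eq_sup (Finset.range (m + 1))
      ⟨0, by rw [Finset.mem_range]; omega⟩
      (fun i => min (x / b ^ i % b) (y / b ^ (m - i) % b))
    rw [Finset.mem_range] at hi
    refine ⟨i, m - i, by omega, ?_, ?_⟩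
    · have := h m
      rw [h1] at this
      rw [dg, dg, this]; exact min_le_left _ _
    · have := h m
      rw [h1] at this
      rw [dg, dg, this]; exact min_le_right _ _

theorem LP_unique {b n n' x y : ℕ} (h : LP b n x y) (h' : LP b n' x y) (m : ℕ) :
    dg b n m = dg b n' m := by
  apply le_antisymm
  · obtain ⟨i, j, rfl, h2, h3⟩ := h.2 m
    exact (le_min h2 h3).trans (h'.1 i j)
  · obtain ⟨i, j, rfl, h2, h3⟩ := h'.2 m
    exact (le_min h2 h3).trans (h.1 i j)

/-- numbers divisible by `b` are not prime -/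
theorem not_prime_of_dvd {b k n : ℕ} (hb : 2 ≤ b) (hk : 3 ≤ k) (h1 : b ^ (k - 1) ≤ n)
    (hd : b ∣ n) :
    ¬ ∀ a c : ℕ, (∀ m : ℕ, n / b ^ m % b =
        (Finset.range (m + 1)).sup (fun i => min (a / b ^ i % b) (c / b ^ (m - i) % b))) →
        a = b - 1 ∨ c = b - 1 := by
  intro h
  obtain ⟨c, rfl⟩ := hd
  have hb0 : 0 < b := by omega
  have ha : ∀ i, (b * (b - 1)) / b ^ i % b = if i = 1 then b - 1 else 0 := by
    intro i
    rcases i with _ | _ | i
    · simp
    · simp only [zero_add, pow_one, if_true]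
      rw [Nat.mul_div_cancel_left _ hb0]
      exact Nat.mod_eq_of_lt (by omega)
    · rw [if_neg (by omega), Nat.div_eq_of_lt, Nat.zero_mod]
      calc b * (b - 1) < b * b := Nat.mul_lt_mul_of_pos_left (by omega) hb0
        _ = b ^ 2 := by ring
        _ ≤ b ^ (i + 1 + 1) := Nat.pow_le_pow_right hb0 (by omega)
  have hc : ∀ j, c / b ^ j % b = (b * c) / b ^ (j + 1) % b := by
    intro j
    rw [pow_succ', Nat.mul_div_mul_left _ _ hb0]
  have key : ∀ m : ℕ, (b * c) / b ^ m % b = (Finset.range (m + 1)).sup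
      (fun i => min ((b * (b - 1)) / b ^ i % b) (c / b ^ (m - i) % b)) := by
    intro m
    apply le_antisymm
    · rcases m with _ | m
      · simp
      · refine le_trans ?_ (Finset.le_sup (f := fun t => min (b * (b - 1) / b ^ t % b)
          (c / b ^ (m + 1 - t) % b)) (show 1 ∈ Finset.range (m + 1 + 1) by
            rw [Finset.mem_range]; omega))
        simp only [ha, if_true, Nat.add_sub_cancel]
        rw [hc m]
        apply le_min _ le_rfl
        have := Nat.mod_lt (b * c / b ^ (m + 1)) hb0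
        omega
    · apply Finset.sup_le
      intro i hi
      rw [Finset.mem_range] at hi
      simp only [ha]
      split_ifs with hi1
      · subst hi1
        obtain ⟨m', rfl⟩ : ∃ m', m = m' + 1 := ⟨m - 1, by omega⟩
        rw [Nat.add_sub_cancel, hc m']
        exact min_le_right _ _
      · simp
  rcases h (b * (b - 1)) c key with h2 | h2
  · have : b - 1 < b * (b - 1) := by
      calc b - 1 = 1 * (b - 1) := by ring
        _ < b * (b - 1) := Nat.mul_lt_mul_of_pos_right (by omega) (by omega)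
    omega
  · rw [h2] at h1
    have h3 : b ^ 2 ≤ b ^ (k - 1) := Nat.pow_le_pow_right hb0 (by omega)
    have h4 : b * (b - 1) < b ^ 2 := by
      calc b * (b - 1) < b * b := Nat.mul_lt_mul_of_pos_left (by omega) hb0
        _ = b ^ 2 := by ring
    omega

/-- the degrees of the factors -/
theorem factors {b k n x y : ℕ} (hb : 2 ≤ b) (hk : 1 ≤ k) (h1 : b ^ (k - 1) ≤ n)
    (h2 : n < b ^ k) (h0 : dg b n 0 ≠ 0) (h : LP b n x y) :
    ∃ p q, p + q + 1 = k ∧ b ^ p ≤ x ∧ x < b ^ (p + 1) ∧ b ^ q ≤ y ∧ y < b ^ (q + 1) ∧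
      1 ≤ dg b x 0 ∧ 1 ≤ dg b y 0 ∧ 1 ≤ dg b x p ∧ 1 ≤ dg b y q := by
  obtain ⟨i0, j0, hij, hx0, hy0⟩ := h.2 0
  have hi0 : i0 = 0 := by omega
  have hj0 : j0 = 0 := by omega
  subst hi0 hj0
  have hx : x ≠ 0 := by
    rintro rfl
    simp [dg] at hx0 h0
    omega
  have hy : y ≠ 0 := by
    rintro rfl
    simp [dg] at hy0 h0
    omega
  have key : ∀ z, z ≠ 0 → ∃ p, b ^ p ≤ z ∧ z < b ^ (p + 1) ∧ 1 ≤ dg b z p ∧
      ∀ i, 1 ≤ dg b z i → i ≤ p := by
    intro z hz
    refine ⟨Nat.log b z, Nat.pow_log_le_self b hz, Nat.lt_pow_succ_log_self (by omega) z, ?_, ?_⟩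
    · have h3 := Nat.pow_log_le_self b hz
      have h4 := Nat.lt_pow_succ_log_self (b := b) (by omega) z
      rw [dg, Nat.mod_eq_of_lt]
      · exact Nat.div_pos h3 (by positivity)
      · rw [Nat.div_lt_iff_lt_mul (by positivity), ← pow_succ']
        exact h4
    · intro i hi
      by_contra hcon
      push Not at hcon
      have h4 := Nat.lt_pow_succ_log_self (b := b) (by omega) z
      have : z < b ^ i := h4.trans_le (Nat.pow_le_pow_right (by omega) hcon)
      rw [dg_eq_zero_of_lt this] at hi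
      omega
  obtain ⟨p, hp1, hp2, hp3, hp4⟩ := key x hx
  obtain ⟨q, hq1, hq2, hq3, hq4⟩ := key y hy
  refine ⟨p, q, ?_, hp1, hp2, hq1, hq2, by omega, by omega, hp3, hq3⟩
  have h5 : p + q ≤ k - 1 := by
    by_contra hcon
    push Not at hcon
    have h6 := h.1 p q
    have h7 : n < b ^ (p + q) := h2.trans_le (Nat.pow_le_pow_right (by omega) (by omega))
    rw [dg_eq_zero_of_lt h7] at h6
    have := le_min hp3 hq3
    omega
  have h6 : k - 1 ≤ p + q := by
    obtain ⟨i, j, hij, h7, h8⟩ := h.2 (k - 1)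
    have h9 : 1 ≤ dg b n (k - 1) := by
      rw [dg, Nat.mod_eq_of_lt]
      · exact Nat.div_pos h1 (by positivity)
      · rw [Nat.div_lt_iff_lt_mul (by positivity), ← pow_succ']
        have : k - 1 + 1 = k := by omega
        rw [this]; exact h2
    have := hp4 i (by omega)
    have := hq4 j (by omega)
    omega
  omega

end Pool.Agent.H180R3.Lunar
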