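import Mathlib
import Pool.Agent.H180R3.LunarDigits

set_option autoImplicit false

namespace Pool.Agent.H180R3.Lunar

open Finset

theorem card_digits {b k s J : ℕ} {θ : ℝ} (hb : 2 ≤ b) (e : Fin J × Fin s → Fin k)
    (he : Function.Injective e) (Q : Fin J → (Fin s → Fin b) → Prop)
    (hK : ∀ j, (Nat.card {v : Fin s → Fin b // Q j v} : ℝ) ≤ θ * (b : ℝ) ^ s)
    (A : Finset ℕ) (hA : ∀ n ∈ A, n < b ^ k ∧ ∀ j, Q j (fun t => D b hb n (e (j, t)))) :
    (A.card : ℝ) ≤ θ ^ J * (b : ℝ) ^ k := by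
  have h1 := card_blocks_real b s J θ (by omega) e he Q hK
  rw [Fintype.card_fin] at h1
  refine le_trans ?_ h1
  have h2 : A.card = Nat.card {n // n ∈ A} := by simp
  rw [h2]
  exact_mod_cast Nat.card_le_card_of_injective
    (fun n : {n // n ∈ A} => (⟨fun i : Fin k => D b hb n.1 i, (hA n.1 n.2).2⟩ :
      {f : Fin k → Fin b // ∀ j, Q j (fun t => f (e (j, t)))})) (by
      intro n n' hnn
      apply Subtype.ext
      have h3 := congrArg Subtype.val hnn
      apply eq_of_dg (hA n.1 n.2).1 (hA n'.1 n'.2).1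
      intro i hi
      have h4 := congrFun h3 ⟨i, hi⟩
      exact congrArg Fin.val h4)

/-- all digits different from `b - 1` -/
theorem case0 {b k : ℕ} (hb : 2 ≤ b) (A : Finset ℕ)
    (hA : ∀ n ∈ A, n < b ^ k ∧ ∀ i, i < k → dg b n i ≠ b - 1) :
    (A.card : ℝ) ≤ (1 - 1 / (b : ℝ)) ^ k * (b : ℝ) ^ k := by
  classical
  have hbr : (0 : ℝ) < b := by exact_mod_cast (by omega : 0 < b)
  refine card_digits (s := 1) (J := k) hb (fun z => z.1) ?_
    (fun _ v => v ≠ fun _ => ⟨b - 1, by omega⟩) ?_ A ?_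
  · rintro ⟨j, t⟩ ⟨j', t'⟩ h
    simp only at h
    subst h
    have : t = t' := Subsingleton.elim _ _
    rw [this]
  · intro j
    have h1 : Nat.card {v : Fin 1 → Fin b // v ≠ fun _ => ⟨b - 1, by omega⟩} = b - 1 := by
      rw [Nat.card_eq_fintype_card, Fintype.card_subtype_compl]
      simp
    rw [h1, Nat.cast_sub (by omega)]
    push_cast
    rw [pow_one]
    field_simp
    rfl
  · intro n hn
    refine ⟨(hA n hn).1, fun j h => (hA n hn).2 j j.isLt ?_⟩
    exact congrArg Fin.val (congrFun h 0)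

/-- all middle digits equal to `b - 1` -/
theorem case3 {b k : ℕ} (hb : 2 ≤ b) (A : Finset ℕ)
    (hA : ∀ n ∈ A, n < b ^ k ∧ ∀ i, k / 4 ≤ i → i < 3 * k / 4 → dg b n i = b - 1) :
    (A.card : ℝ) ≤ (1 / (b : ℝ)) ^ (3 * k / 4 - k / 4) * (b : ℝ) ^ k := by
  classical
  have hbr : (0 : ℝ) < b := by exact_mod_cast (by omega : 0 < b)
  refine card_digits (s := 1) (J := 3 * k / 4 - k / 4) hb
    (fun z => ⟨k / 4 + z.1, by have := z.1.isLt; omega⟩) ?_
    (fun _ v => v = fun _ => ⟨b - 1, by omega⟩) ?_ A ?_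
  · rintro ⟨j, t⟩ ⟨j', t'⟩ h
    simp only [Fin.mk.injEq] at h
    have h1 : j = j' := Fin.ext (by omega)
    have : t = t' := Subsingleton.elim _ _
    rw [this, h1]
  · intro j
    have h1 : Nat.card {v : Fin 1 → Fin b // v = fun _ => ⟨b - 1, by omega⟩} = 1 := by
      rw [Nat.card_eq_fintype_card]
      simp
    rw [h1]
    push_cast
    rw [pow_one]
    field_simp
    rfl
  · intro n hn
    refine ⟨(hA n hn).1, fun j => ?_⟩
    funext t
    apply Fin.ext
    have := j.isLt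
    exact (hA n hn).2 _ (by simp only []; omega) (by simp only []; omega)

/-- a factor of small degree -/
theorem case1 {b k p x : ℕ} (hb : 2 ≤ b) (hp : 1 ≤ p) (hx : x < b ^ (p + 1))
    (h0 : 1 ≤ dg b x 0) (h1 : 1 ≤ dg b x p) (A : Finset ℕ)
    (hA : ∀ n ∈ A, n < b ^ k ∧ ∃ y, LP b n x y) :
    (A.card : ℝ) ≤ (1 - 1 / (b : ℝ) ^ 3) ^ (k / (2 * p + 1)) * (b : ℝ) ^ k := by
  have hlt : ∀ (j : Fin (k / (2 * p + 1))) (t : Fin (2 * p + 1)),
      (2 * p + 1) * (j : ℕ) + t < k := by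
    intro j t
    calc (2 * p + 1) * (j : ℕ) + t < (2 * p + 1) * (j : ℕ) + (2 * p + 1) := by
          have := t.isLt; omega
      _ = (2 * p + 1) * ((j : ℕ) + 1) := by ring
      _ ≤ (2 * p + 1) * (k / (2 * p + 1)) := Nat.mul_le_mul_left _ j.isLt
      _ ≤ k := Nat.mul_div_le _ _
  refine card_digits (s := 2 * p + 1) (J := k / (2 * p + 1)) hb
    (fun z => ⟨(2 * p + 1) * (z.1 : ℕ) + z.2, hlt z.1 z.2⟩) ?_
    (fun _ v => Win b p (dg b x) v) ?_ A ?_
  · rintro ⟨j, t⟩ ⟨j', t'⟩ h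
    simp only [Fin.mk.injEq] at h
    have ht := t.isLt
    have ht' := t'.isLt
    have h2 : (j : ℕ) = j' := by
      have e1 : ((2 * p + 1) * (j : ℕ) + t) / (2 * p + 1) = j := by
        rw [Nat.mul_add_div (by omega), Nat.div_eq_of_lt ht, add_zero]
      have e2 : ((2 * p + 1) * (j' : ℕ) + t') / (2 * p + 1) = j' := by
        rw [Nat.mul_add_div (by omega), Nat.div_eq_of_lt ht', add_zero]
      rw [← e1, ← e2, h]
    have h3 : (t : ℕ) = t' := by
      rw [h2] at h; omega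
    rw [Fin.ext h2, Fin.ext h3]
  · intro j
    exact win_count b p (dg b x) hb hp h0 h1
  · intro n hn
    obtain ⟨hn1, y, hy⟩ := hA n hn
    refine ⟨hn1, fun j => ?_⟩
    by_cases hm : dg b n ((2 * p + 1) * (j : ℕ) + p) = b - 1
    · right
      obtain ⟨i, i2, hii, h3, h4⟩ := hy.2 ((2 * p + 1) * (j : ℕ) + p)
      have hxi := dg_lt hb x i
      have hyi := dg_lt hb y i2
      refine ⟨i, ?_, by omega, ?_⟩
      · by_contra hcon
        push Not at hcon
        have : x < b ^ i := hx.trans_le (Nat.pow_le_pow_right (by omega) hcon)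
        rw [dg_eq_zero_of_lt this] at h3
        omega
      · intro i' t hi' ht
        have h5 := hy.1 i' i2
        have h6 : i' + i2 = (2 * p + 1) * (j : ℕ) + t := by omega
        rw [h6] at h5
        have h7 := dg_lt hb x i'
        have h8 : dg b x i' ≤ min (dg b x i') (dg b y i2) := le_min le_rfl (by omega)
        exact h8.trans h5
    · left
      exact hm

theorem pair_count {b : ℕ} (hb : 2 ≤ b) :
    (Nat.card {v : Fin 2 → Fin b // ¬ (v 0 = ⟨b - 1, by omega⟩ ∧ v 1 = ⟨b - 1, by omega⟩)} : ℝ) ≤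
      (1 - 1 / (b : ℝ) ^ 2) * (b : ℝ) ^ 2 := by
  classical
  have hbr : (0 : ℝ) < b := by exact_mod_cast (by omega : 0 < b)
  have h1 : Nat.card {v : Fin 2 → Fin b // ¬ (v 0 = ⟨b - 1, by omega⟩ ∧ v 1 = ⟨b - 1, by omega⟩)}
      = b ^ 2 - 1 := by
    rw [Nat.card_eq_fintype_card, Fintype.card_subtype_compl]
    have h2 : Fintype.card {v : Fin 2 → Fin b // v 0 = ⟨b - 1, by omega⟩ ∧
        v 1 = ⟨b - 1, by omega⟩} = 1 := by
      rw [Fintype.card_eq_one_iff]
      refine ⟨⟨fun _ => ⟨b - 1, by omega⟩, rfl, rfl⟩, ?_⟩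
      rintro ⟨v, h, h'⟩
      apply Subtype.ext
      funext i
      fin_cases i
      · exact h
      · exact h'
    rw [h2]
    simp
  rw [h1, Nat.cast_sub (Nat.one_le_pow _ _ (by omega))]
  push_cast
  apply le_of_eq
  field_simp

theorem card_pairs {b k p m J : ℕ} (hb : 2 ≤ b) (lo : ℕ) (hJ1 : lo + J ≤ p + 1)
    (hJ2 : lo + J ≤ m + 1) (hJ3 : m < k - p + lo) (hp : p ≤ k) (A : Finset (ℕ × ℕ))
    (hA : ∀ z ∈ A, z.1 < b ^ (p + 1) ∧ z.2 < b ^ (k - p) ∧
      ∀ i j, i + j = m → ¬ (dg b z.1 i = b - 1 ∧ dg b z.2 j = b - 1)) :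
    (A.card : ℝ) ≤ (1 - 1 / (b : ℝ) ^ 2) ^ J * (b : ℝ) ^ (k + 1) := by
  let e : Fin J × Fin 2 → Fin (p + 1) ⊕ Fin (k - p) := fun z =>
    if z.2 = 0 then Sum.inl ⟨lo + z.1, by have := z.1.isLt; omega⟩
    else Sum.inr ⟨m - (lo + z.1), by have := z.1.isLt; omega⟩
  have he : Function.Injective e := by
    rintro ⟨j, t⟩ ⟨j', t'⟩ h
    have hj := j.isLt
    have hj' := j'.isLt
    simp only [e] at h
    split_ifs at h with h1 h2 h2
    · rw [Sum.inl.injEq, Fin.mk.injEq] at h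
      rw [h1, h2, Fin.ext (by omega : (j : ℕ) = j')]
    · rw [Sum.inr.injEq, Fin.mk.injEq] at h
      have : t = t' := by omega
      rw [this, Fin.ext (by omega : (j : ℕ) = j')]
  have h1 := card_blocks_real b 2 J (1 - 1 / (b : ℝ) ^ 2) (by omega) e he
    (fun _ v => ¬ (v 0 = ⟨b - 1, by omega⟩ ∧ v 1 = ⟨b - 1, by omega⟩)) (fun _ => pair_count hb)
  rw [Fintype.card_sum, Fintype.card_fin, Fintype.card_fin] at h1
  have h0 : p + 1 + (k - p) = k + 1 := by omega
  rw [h0] at h1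
  refine le_trans ?_ h1
  have h2 : A.card = Nat.card {n // n ∈ A} := by simp
  rw [h2]
  exact_mod_cast Nat.card_le_card_of_injective
    (fun z : {z // z ∈ A} => (⟨Sum.elim (fun i => D b hb z.1.1 i) (fun i => D b hb z.1.2 i), by
      intro j
      rintro ⟨h3, h4⟩
      simp only [e, if_true, Sum.elim_inl, Fin.isValue, one_ne_zero, if_false,
        Sum.elim_inr] at h3 h4
      have hj := j.isLt
      refine (hA z.1 z.2).2.2 (lo + j) (m - (lo + j)) (by omega) ⟨congrArg Fin.val h3,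
        congrArg Fin.val h4⟩⟩ :
      {f : Fin (p + 1) ⊕ Fin (k - p) → Fin b // ∀ j : Fin J,
        ¬ (f (e (j, 0)) = (⟨b - 1, by omega⟩ : Fin b) ∧
          f (e (j, 1)) = (⟨b - 1, by omega⟩ : Fin b))})) (by
      intro z z' hzz
      apply Subtype.ext
      have h3 := congrArg Subtype.val hzz
      apply Prod.ext
      · apply eq_of_dg (hA z.1 z.2).1 (hA z'.1 z'.2).1
        intro i hi
        have h4 := congrFun h3 (Sum.inl ⟨i, hi⟩)
        exact congrArg Fin.val h4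
      · apply eq_of_dg (hA z.1 z.2).2.1 (hA z'.1 z'.2).2.1
        intro i hi
        have h4 := congrFun h3 (Sum.inr ⟨i, hi⟩)
        exact congrArg Fin.val h4)

/-- a middle digit different from `b - 1` -/
theorem case2 {b k p m J : ℕ} (hb : 2 ≤ b) (hJ1 : J ≤ p + 1) (hJ2 : J ≤ m + 1)
    (hJ3 : J + m ≤ k) (hJ4 : J + p ≤ k) (A : Finset ℕ)
    (hA : ∀ n ∈ A, n < b ^ k ∧ dg b n m ≠ b - 1 ∧
      ∃ x y, x < b ^ (p + 1) ∧ y < b ^ (k - p) ∧ LP b n x y) :
    (A.card : ℝ) ≤ (1 - 1 / (b : ℝ) ^ 2) ^ J * (b : ℝ) ^ (k + 1) := by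
  classical
  rcases Nat.eq_zero_or_pos J with rfl | hJ0
  · rw [pow_zero, one_mul]
    have h1 : A ⊆ Finset.range (b ^ k) := fun n hn => Finset.mem_range.2 (hA n hn).1
    have h2 := Finset.card_le_card h1
    rw [Finset.card_range] at h2
    calc (A.card : ℝ) ≤ ((b ^ k : ℕ) : ℝ) := by exact_mod_cast h2
      _ ≤ (b : ℝ) ^ (k + 1) := by
          exact_mod_cast Nat.pow_le_pow_right (by omega) (by omega)
  have hA' : ∀ n, n ∈ A → ∃ z : ℕ × ℕ, z.1 < b ^ (p + 1) ∧ z.2 < b ^ (k - p) ∧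
      LP b n z.1 z.2 := by
    intro n hn
    obtain ⟨_, _, x, y, h1, h2, h3⟩ := hA n hn
    exact ⟨(x, y), h1, h2, h3⟩
  choose! f hf using hA'
  have hinj : Set.InjOn f A := by
    intro n hn n' hn' hnn
    have h1 := (hf n hn).2.2
    have h2 := (hf n' hn').2.2
    rw [← hnn] at h2
    exact eq_of_dg (hA n hn).1 (hA n' hn').1 (fun i _ => LP_unique h1 h2 i)
  rw [← Finset.card_image_of_injOn hinj]
  refine card_pairs (p := p) (m := m) hb (m - (k - 1 - p)) (by omega) (by omega) (by omega)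
    (by omega) _ ?_
  intro z hz
  rw [Finset.mem_image] at hz
  obtain ⟨n, hn, rfl⟩ := hz
  refine ⟨(hf n hn).1, (hf n hn).2.1, ?_⟩
  rintro i j hij ⟨h1, h2⟩
  have h3 := (hf n hn).2.2.1 i j
  rw [h1, h2, min_self, hij] at h3
  have h4 := dg_lt hb n m
  have h5 := (hA n hn).2.1
  omega

end Pool.Agent.H180R3.Lunar
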