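import Mathlib
import Pool.Agent.H180R3.LunarBad

set_option autoImplicit false

namespace Pool.Agent.H180R3.Lunar

open Finset

open Classical in
/-- The numbers with `k` digits, not divisible by `b`, that are not lunar primes. -/
noncomputable def Bad (b k : ℕ) : Finset ℕ :=
  (Finset.range (b ^ k)).filter (fun n => b ^ (k - 1) ≤ n ∧ ¬ b ∣ n ∧
    ∃ x y, x ≠ b - 1 ∧ y ≠ b - 1 ∧ LP b n x y)

theorem theta_bounds {b e : ℕ} (hb : 2 ≤ b) (he : 1 ≤ e) :
    0 ≤ 1 - 1 / (b : ℝ) ^ e ∧ 1 - 1 / (b : ℝ) ^ e < 1 := by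
  have hbr : (1 : ℝ) < b := by exact_mod_cast (by omega : 1 < b)
  have h1 : (1 : ℝ) ≤ (b : ℝ) ^ e := one_le_pow₀ hbr.le
  have h2 : 0 < 1 / (b : ℝ) ^ e := by positivity
  have h3 : 1 / (b : ℝ) ^ e ≤ 1 := by
    rw [div_le_one (by positivity)]; exact h1
  constructor <;> linarith

theorem bad_card {b k L : ℕ} (hb : 2 ≤ b) (hk : 3 ≤ k) (hL4 : 4 * L ≤ k) (hLk : L ^ 4 ≤ k) :
    ((Bad b k).card : ℝ) ≤ ((1 - 1 / (b : ℝ)) ^ k +
      (L : ℝ) * (b : ℝ) ^ L * (1 - 1 / (b : ℝ) ^ 3) ^ (L ^ 2) +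
      (k : ℝ) ^ 2 * (b : ℝ) * (1 - 1 / (b : ℝ) ^ 2) ^ L +
      (1 / (b : ℝ)) ^ (3 * k / 4 - k / 4)) * (b : ℝ) ^ k := by
  classical
  have hb0 : (0 : ℝ) < b := by exact_mod_cast (by omega : 0 < b)
  have hb1 : (1 : ℝ) ≤ b := by exact_mod_cast (by omega : 1 ≤ b)
  let A0 := (Finset.range (b ^ k)).filter (fun n => ∀ i, i < k → dg b n i ≠ b - 1)
  let A1 : ℕ → ℕ → Finset ℕ := fun p x => (Finset.range (b ^ k)).filter
    (fun n => 1 ≤ dg b x 0 ∧ 1 ≤ dg b x p ∧ ∃ y, LP b n x y)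
  let A2 : ℕ → ℕ → Finset ℕ := fun p m => (Finset.range (b ^ k)).filter
    (fun n => dg b n m ≠ b - 1 ∧ 2 * p + 1 ≤ k ∧
      ∃ x y, x < b ^ (p + 1) ∧ y < b ^ (k - p) ∧ LP b n x y)
  let A3 := (Finset.range (b ^ k)).filter
    (fun n => ∀ i, k / 4 ≤ i → i < 3 * k / 4 → dg b n i = b - 1)
  have hsub : Bad b k ⊆ ((A0 ∪ (Finset.Ico 1 L).biUnion (fun p =>
      (Finset.range (b ^ (p + 1))).biUnion (fun x => A1 p x))) ∪
      (Finset.Ico L k).biUnion (fun p => (Finset.Ico (k / 4) (3 * k / 4)).biUnion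
        (fun m => A2 p m))) ∪ A3 := by
    intro n hn
    rw [Bad, Finset.mem_filter, Finset.mem_range] at hn
    obtain ⟨hnk, hn1, hnd, x, y, hx, hy, hLP⟩ := hn
    have h0 : dg b n 0 ≠ 0 := by
      rw [dg, pow_zero, Nat.div_one]
      intro h
      exact hnd (Nat.dvd_of_mod_eq_zero h)
    obtain ⟨p, q, hpq, h1, h2, h3, h4, h5, h6, h7, h8⟩ :=
      factors hb (by omega) hn1 hnk h0 hLP
    -- choose the factor of smaller degree
    obtain ⟨p, x, y, hpk, hxb, hx2, hy2, hx0, hxp, hLP⟩ : ∃ p x y, 2 * p + 1 ≤ k ∧ x ≠ b - 1 ∧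
        x < b ^ (p + 1) ∧ y < b ^ (k - p) ∧ 1 ≤ dg b x 0 ∧ 1 ≤ dg b x p ∧ LP b n x y := by
      rcases Nat.le_total p q with h | h
      · refine ⟨p, x, y, by omega, hx, h2, ?_, h5, h7, hLP⟩
        have : k - p = q + 1 := by omega
        rw [this]; exact h4
      · refine ⟨q, y, x, by omega, hy, h4, ?_, h6, h8, hLP.symm⟩
        have : k - q = p + 1 := by omega
        rw [this]; exact h2
    simp only [Finset.mem_union, Finset.mem_biUnion]
    rcases Nat.eq_zero_or_pos p with rfl | hp0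
    · left; left; left
      simp only [A0, Finset.mem_filter, Finset.mem_range]
      refine ⟨hnk, fun i _ hcon => ?_⟩
      obtain ⟨i1, j1, _, h9, _⟩ := hLP.2 i
      rw [hcon] at h9
      have hxlt : x < b := by simpa using hx2
      rcases Nat.eq_zero_or_pos i1 with rfl | hi1
      · rw [dg, pow_zero, Nat.div_one, Nat.mod_eq_of_lt hxlt] at h9
        omega
      · rw [dg_eq_zero_of_lt (hxlt.trans_le (Nat.le_self_pow (by omega) b))] at h9
        omega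
    · rcases Nat.lt_or_ge p L with hpL | hpL
      · left; left; right
        refine ⟨p, Finset.mem_Ico.2 ⟨hp0, hpL⟩, x, Finset.mem_range.2 hx2, ?_⟩
        simp only [A1, Finset.mem_filter, Finset.mem_range]
        exact ⟨hnk, hx0, hxp, y, hLP⟩
      · by_cases hm : ∀ i, k / 4 ≤ i → i < 3 * k / 4 → dg b n i = b - 1
        · right
          simp only [A3, Finset.mem_filter, Finset.mem_range]
          exact ⟨hnk, hm⟩
        · push Not at hm
          obtain ⟨m, hm1, hm2, hm3⟩ := hm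
          left; right
          refine ⟨p, Finset.mem_Ico.2 ⟨hpL, by omega⟩, m, Finset.mem_Ico.2 ⟨hm1, hm2⟩, ?_⟩
          simp only [A2, Finset.mem_filter, Finset.mem_range]
          exact ⟨hnk, hm3, hpk, x, y, hx2, hy2, hLP⟩
  have hc1 := (Finset.card_le_card hsub).trans (Finset.card_union_le _ _)
  have hc2 := Finset.card_union_le (A0 ∪ (Finset.Ico 1 L).biUnion (fun p =>
      (Finset.range (b ^ (p + 1))).biUnion (fun x => A1 p x)))
      ((Finset.Ico L k).biUnion (fun p => (Finset.Ico (k / 4) (3 * k / 4)).biUnion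
        (fun m => A2 p m)))
  have hc3 := Finset.card_union_le A0 ((Finset.Ico 1 L).biUnion (fun p =>
      (Finset.range (b ^ (p + 1))).biUnion (fun x => A1 p x)))
  have hc4 : ((Finset.Ico 1 L).biUnion (fun p =>
      (Finset.range (b ^ (p + 1))).biUnion (fun x => A1 p x))).card ≤
      ∑ p ∈ Finset.Ico 1 L, ∑ x ∈ Finset.range (b ^ (p + 1)), (A1 p x).card :=
    Finset.card_biUnion_le.trans (Finset.sum_le_sum fun p _ => Finset.card_biUnion_le)
  have hc5 : ((Finset.Ico L k).biUnion (fun p => (Finset.Ico (k / 4) (3 * k / 4)).biUnion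
        (fun m => A2 p m))).card ≤
      ∑ p ∈ Finset.Ico L k, ∑ m ∈ Finset.Ico (k / 4) (3 * k / 4), (A2 p m).card :=
    Finset.card_biUnion_le.trans (Finset.sum_le_sum fun p _ => Finset.card_biUnion_le)
  obtain ⟨hθ3, hθ3'⟩ := theta_bounds (b := b) (e := 3) hb (by omega)
  obtain ⟨hθ2, hθ2'⟩ := theta_bounds (b := b) (e := 2) hb (by omega)
  have hb0k : (0 : ℝ) < (b : ℝ) ^ k := by positivity
  -- the four bounds
  have e0 : (A0.card : ℝ) ≤ (1 - 1 / (b : ℝ)) ^ k * (b : ℝ) ^ k := by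
    apply case0 hb
    intro n hn
    simp only [A0, Finset.mem_filter, Finset.mem_range] at hn
    exact hn
  have e3 : (A3.card : ℝ) ≤ (1 / (b : ℝ)) ^ (3 * k / 4 - k / 4) * (b : ℝ) ^ k := by
    apply case3 hb
    intro n hn
    simp only [A3, Finset.mem_filter, Finset.mem_range] at hn
    exact hn
  have e1 : ((∑ p ∈ Finset.Ico 1 L, ∑ x ∈ Finset.range (b ^ (p + 1)), (A1 p x).card : ℕ) : ℝ) ≤
      (L : ℝ) * (b : ℝ) ^ L * (1 - 1 / (b : ℝ) ^ 3) ^ (L ^ 2) * (b : ℝ) ^ k := by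
    push_cast
    have h1 : ∀ p ∈ Finset.Ico 1 L, ∑ x ∈ Finset.range (b ^ (p + 1)), ((A1 p x).card : ℝ) ≤
        (b : ℝ) ^ L * ((1 - 1 / (b : ℝ) ^ 3) ^ (L ^ 2) * (b : ℝ) ^ k) := by
      intro p hp
      rw [Finset.mem_Ico] at hp
      have h2 : ∀ x ∈ Finset.range (b ^ (p + 1)), ((A1 p x).card : ℝ) ≤
          (1 - 1 / (b : ℝ) ^ 3) ^ (L ^ 2) * (b : ℝ) ^ k := by
        intro x hx
        rw [Finset.mem_range] at hx
        by_cases hx0 : 1 ≤ dg b x 0 ∧ 1 ≤ dg b x p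
        · have h3 := case1 (k := k) hb hp.1 hx hx0.1 hx0.2 (A1 p x) (by
            intro n hn
            simp only [A1, Finset.mem_filter, Finset.mem_range] at hn
            exact ⟨hn.1, hn.2.2.2⟩)
          refine h3.trans (mul_le_mul_of_nonneg_right ?_ hb0k.le)
          apply pow_le_pow_of_le_one hθ3 hθ3'.le
          rw [Nat.le_div_iff_mul_le (by omega)]
          obtain ⟨w, hw⟩ : ∃ w, L = w + 1 := ⟨L - 1, by omega⟩
          have h4 : 2 * p + 1 ≤ L ^ 2 := by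
            rw [hw] at hp ⊢
            nlinarith [hp.2]
          calc L ^ 2 * (2 * p + 1) ≤ L ^ 2 * L ^ 2 := Nat.mul_le_mul_left _ h4
            _ = L ^ 4 := by ring
            _ ≤ k := hLk
        · have h3 : A1 p x = ∅ := by
            apply Finset.eq_empty_of_forall_notMem
            intro n hn
            simp only [A1, Finset.mem_filter, Finset.mem_range] at hn
            exact hx0 ⟨hn.2.1, hn.2.2.1⟩
          rw [h3, Finset.card_empty]
          push_cast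
          positivity
      calc _ ≤ ∑ _x ∈ Finset.range (b ^ (p + 1)), (1 - 1 / (b : ℝ) ^ 3) ^ (L ^ 2) * (b : ℝ) ^ k :=
            Finset.sum_le_sum h2
        _ = (b : ℝ) ^ (p + 1) * ((1 - 1 / (b : ℝ) ^ 3) ^ (L ^ 2) * (b : ℝ) ^ k) := by
            rw [Finset.sum_const, Finset.card_range, nsmul_eq_mul]; push_cast; rfl
        _ ≤ _ := by
            refine mul_le_mul_of_nonneg_right (pow_le_pow_right₀ hb1 (by omega)) (by positivity)
    calc _ ≤ ∑ _p ∈ Finset.Ico 1 L, (b : ℝ) ^ L * ((1 - 1 / (b : ℝ) ^ 3) ^ (L ^ 2) * (b : ℝ) ^ k) :=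
          Finset.sum_le_sum h1
      _ = ((L - 1 : ℕ) : ℝ) * ((b : ℝ) ^ L * ((1 - 1 / (b : ℝ) ^ 3) ^ (L ^ 2) * (b : ℝ) ^ k)) := by
          rw [Finset.sum_const, Nat.card_Ico, nsmul_eq_mul]
      _ ≤ (L : ℝ) * ((b : ℝ) ^ L * ((1 - 1 / (b : ℝ) ^ 3) ^ (L ^ 2) * (b : ℝ) ^ k)) := by
          refine mul_le_mul_of_nonneg_right ?_ (by positivity)
          exact_mod_cast Nat.sub_le L 1
      _ = _ := by ring
  have e2 : ((∑ p ∈ Finset.Ico L k, ∑ m ∈ Finset.Ico (k / 4) (3 * k / 4), (A2 p m).card : ℕ) : ℝ) ≤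
      (k : ℝ) ^ 2 * (b : ℝ) * (1 - 1 / (b : ℝ) ^ 2) ^ L * (b : ℝ) ^ k := by
    push_cast
    have h1 : ∀ p ∈ Finset.Ico L k, ∑ m ∈ Finset.Ico (k / 4) (3 * k / 4), ((A2 p m).card : ℝ) ≤
        (k : ℝ) * ((1 - 1 / (b : ℝ) ^ 2) ^ L * (b : ℝ) ^ (k + 1)) := by
      intro p hp
      rw [Finset.mem_Ico] at hp
      have h2 : ∀ m ∈ Finset.Ico (k / 4) (3 * k / 4), ((A2 p m).card : ℝ) ≤
          (1 - 1 / (b : ℝ) ^ 2) ^ L * (b : ℝ) ^ (k + 1) := by
        intro m hm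
        rw [Finset.mem_Ico] at hm
        by_cases hpk : 2 * p + 1 ≤ k
        · apply case2 (p := p) (m := m) hb (by omega) (by omega) (by omega) (by omega)
          intro n hn
          simp only [A2, Finset.mem_filter, Finset.mem_range] at hn
          exact ⟨hn.1, hn.2.1, hn.2.2.2⟩
        · have h3 : A2 p m = ∅ := by
            apply Finset.eq_empty_of_forall_notMem
            intro n hn
            simp only [A2, Finset.mem_filter, Finset.mem_range] at hn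
            exact hpk hn.2.2.1
          rw [h3, Finset.card_empty]
          push_cast
          positivity
      calc _ ≤ ∑ _m ∈ Finset.Ico (k / 4) (3 * k / 4),
            (1 - 1 / (b : ℝ) ^ 2) ^ L * (b : ℝ) ^ (k + 1) := Finset.sum_le_sum h2
        _ = ((3 * k / 4 - k / 4 : ℕ) : ℝ) * ((1 - 1 / (b : ℝ) ^ 2) ^ L * (b : ℝ) ^ (k + 1)) := by
            rw [Finset.sum_const, Nat.card_Ico, nsmul_eq_mul]
        _ ≤ _ := by
            refine mul_le_mul_of_nonneg_right ?_ (by positivity)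
            exact_mod_cast (by omega : 3 * k / 4 - k / 4 ≤ k)
    calc _ ≤ ∑ _p ∈ Finset.Ico L k,
          (k : ℝ) * ((1 - 1 / (b : ℝ) ^ 2) ^ L * (b : ℝ) ^ (k + 1)) := Finset.sum_le_sum h1
      _ = ((k - L : ℕ) : ℝ) * ((k : ℝ) * ((1 - 1 / (b : ℝ) ^ 2) ^ L * (b : ℝ) ^ (k + 1))) := by
          rw [Finset.sum_const, Nat.card_Ico, nsmul_eq_mul]
      _ ≤ (k : ℝ) * ((k : ℝ) * ((1 - 1 / (b : ℝ) ^ 2) ^ L * (b : ℝ) ^ (k + 1))) := by
          refine mul_le_mul_of_nonneg_right ?_ (by positivity)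
          exact_mod_cast Nat.sub_le k L
      _ = _ := by rw [pow_succ]; ring
  have hfin : (((Bad b k).card : ℕ) : ℝ) ≤ (A0.card : ℝ) +
      ((∑ p ∈ Finset.Ico 1 L, ∑ x ∈ Finset.range (b ^ (p + 1)), (A1 p x).card : ℕ) : ℝ) +
      ((∑ p ∈ Finset.Ico L k, ∑ m ∈ Finset.Ico (k / 4) (3 * k / 4), (A2 p m).card : ℕ) : ℝ) +
      (A3.card : ℝ) := by
    have : (Bad b k).card ≤ A0.card +
      (∑ p ∈ Finset.Ico 1 L, ∑ x ∈ Finset.range (b ^ (p + 1)), (A1 p x).card) +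
      (∑ p ∈ Finset.Ico L k, ∑ m ∈ Finset.Ico (k / 4) (3 * k / 4), (A2 p m).card) +
      A3.card := by omega
    exact_mod_cast this
  calc _ ≤ _ := hfin
    _ ≤ (1 - 1 / (b : ℝ)) ^ k * (b : ℝ) ^ k +
        (L : ℝ) * (b : ℝ) ^ L * (1 - 1 / (b : ℝ) ^ 3) ^ (L ^ 2) * (b : ℝ) ^ k +
        (k : ℝ) ^ 2 * (b : ℝ) * (1 - 1 / (b : ℝ) ^ 2) ^ L * (b : ℝ) ^ k +
        (1 / (b : ℝ)) ^ (3 * k / 4 - k / 4) * (b : ℝ) ^ k := by
          gcongr
    _ = _ := by ring

/-- the number of `k`-digit numbers not divisible by `b` -/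
theorem card_good {b K : ℕ} (hb : 2 ≤ b) :
    ((Finset.Ico (b ^ (K + 1)) (b ^ (K + 2))).filter (fun n => ¬ b ∣ n)).card =
      (b - 1) ^ 2 * b ^ K := by
  have hb0 : 0 < b := by omega
  have h1 := Finset.card_filter_add_card_filter_not
    (s := Finset.Ico (b ^ (K + 1)) (b ^ (K + 2))) (fun n => b ∣ n)
  have h2 : (Finset.Ico (b ^ (K + 1)) (b ^ (K + 2))).filter (fun n => b ∣ n) =
      (Finset.Ico (b ^ K) (b ^ (K + 1))).image (fun m => b * m) := by
    ext n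
    simp only [Finset.mem_filter, Finset.mem_Ico, Finset.mem_image]
    constructor
    · rintro ⟨⟨h3, h4⟩, m, rfl⟩
      refine ⟨m, ⟨?_, ?_⟩, rfl⟩
      · rw [pow_succ'] at h3
        exact Nat.le_of_mul_le_mul_left h3 hb0
      · rw [pow_succ' b (K + 1)] at h4
        exact Nat.lt_of_mul_lt_mul_left h4
    · rintro ⟨m, ⟨h3, h4⟩, rfl⟩
      refine ⟨⟨?_, ?_⟩, Dvd.intro _ rfl⟩
      · rw [pow_succ']; exact Nat.mul_le_mul_left _ h3
      · rw [pow_succ' b (K + 1)]; exact Nat.mul_lt_mul_of_pos_left h4 hb0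
  rw [h2, Finset.card_image_of_injective _ (fun x y h => Nat.eq_of_mul_eq_mul_left hb0 h),
    Nat.card_Ico, Nat.card_Ico] at h1
  generalize ((Finset.Ico (b ^ (K + 1)) (b ^ (K + 2))).filter (fun n => ¬ b ∣ n)).card = G
    at h1 ⊢
  clear h2
  obtain ⟨c, rfl⟩ : ∃ c, b = c + 1 := ⟨b - 1, by omega⟩
  simp only [Nat.add_sub_cancel]
  have h5 : (c + 1) ^ (K + 1) = (c + 1) * (c + 1) ^ K := pow_succ' _ _
  have h6 : (c + 1) ^ (K + 2) = (c + 1) * ((c + 1) * (c + 1) ^ K) := by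
    rw [pow_succ', pow_succ']
  rw [h5, h6] at h1
  have h7 : (c + 1) * (c + 1) ^ K - (c + 1) ^ K = c * (c + 1) ^ K := by
    rw [add_mul, one_mul, Nat.add_sub_cancel]
  have h8 : (c + 1) * ((c + 1) * (c + 1) ^ K) - (c + 1) * (c + 1) ^ K =
      c * ((c + 1) * (c + 1) ^ K) := by
    rw [add_mul c 1 ((c + 1) * (c + 1) ^ K), one_mul, Nat.add_sub_cancel]
  rw [h7, h8] at h1
  have h9 : c * ((c + 1) * (c + 1) ^ K) = c ^ 2 * (c + 1) ^ K + c * (c + 1) ^ K := by ring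
  rw [h9] at h1
  omega

end Pool.Agent.H180R3.Lunar
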