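import Mathlib
import Pool.Agent.H180R3.LunarMain

set_option autoImplicit false

namespace Pool.Agent.H180R3.Lunar

open Finset Filter Topology

theorem tendsto_rt : Tendsto (fun k : ℕ => Nat.sqrt (Nat.sqrt k)) atTop atTop := by
  refine tendsto_atTop_atTop.2 fun n => ⟨(n * n) * (n * n), fun k hk => ?_⟩
  rw [Nat.le_sqrt, Nat.le_sqrt]
  exact hk

theorem rt_pow_le (k : ℕ) : (Nat.sqrt (Nat.sqrt k)) ^ 4 ≤ k := by
  have h1 := Nat.sqrt_le' (Nat.sqrt k)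
  have h2 := Nat.sqrt_le' k
  calc (Nat.sqrt (Nat.sqrt k)) ^ 4 = ((Nat.sqrt (Nat.sqrt k)) ^ 2) ^ 2 := by ring
    _ ≤ (Nat.sqrt k) ^ 2 := Nat.pow_le_pow_left h1 2
    _ ≤ k := h2

theorem lt_rt_pow (k : ℕ) : k < (Nat.sqrt (Nat.sqrt k) + 1) ^ 4 := by
  have h1 := Nat.lt_succ_sqrt' (Nat.sqrt k)
  have h2 := Nat.lt_succ_sqrt' k
  calc k < (Nat.sqrt k + 1) ^ 2 := h2
    _ ≤ ((Nat.sqrt (Nat.sqrt k) + 1) ^ 2) ^ 2 := Nat.pow_le_pow_left h1 2
    _ = _ := by ring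

theorem tendsto_term2 {b : ℕ} (hb : 2 ≤ b) :
    Tendsto (fun L : ℕ => (L : ℝ) * (b : ℝ) ^ L * (1 - 1 / (b : ℝ) ^ 3) ^ (L ^ 2)) atTop (𝓝 0) := by
  obtain ⟨h0, h1⟩ := theta_bounds (b := b) (e := 3) hb (by omega)
  set θ : ℝ := 1 - 1 / (b : ℝ) ^ 3
  have h2 : Tendsto (fun L : ℕ => (b : ℝ) * θ ^ L) atTop (𝓝 0) := by
    simpa using (tendsto_pow_atTop_nhds_zero_of_lt_one h0 h1).const_mul (b : ℝ)
  have h3 : ∀ᶠ L : ℕ in atTop, (b : ℝ) * θ ^ L ≤ 1 / 2 :=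
    (h2.eventually_lt_const (by norm_num : (0 : ℝ) < 1 / 2)).mono fun _ h => h.le
  have h4 : Tendsto (fun L : ℕ => (L : ℝ) * (1 / 2 : ℝ) ^ L) atTop (𝓝 0) :=
    tendsto_self_mul_const_pow_of_lt_one (by norm_num) (by norm_num)
  refine squeeze_zero' (Eventually.of_forall fun L => by positivity) ?_ h4
  filter_upwards [h3] with L hL
  have h5 : (b : ℝ) ^ L * θ ^ (L ^ 2) = ((b : ℝ) * θ ^ L) ^ L := by
    rw [mul_pow, ← pow_mul]; ring_nf
  rw [mul_assoc, h5]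
  exact mul_le_mul_of_nonneg_left (pow_le_pow_left₀ (by positivity) hL L) (Nat.cast_nonneg L)

theorem tendsto_term3 {b : ℕ} (hb : 2 ≤ b) :
    Tendsto (fun L : ℕ => ((L : ℝ) + 1) ^ 8 * (b : ℝ) * (1 - 1 / (b : ℝ) ^ 2) ^ L)
      atTop (𝓝 0) := by
  obtain ⟨h0, h1⟩ := theta_bounds (b := b) (e := 2) hb (by omega)
  have hpos : 0 < 1 - 1 / (b : ℝ) ^ 2 := by
    have hbr : (1 : ℝ) < b := by exact_mod_cast (by omega : 1 < b)
    have h3 : (1 : ℝ) < (b : ℝ) ^ 2 := one_lt_pow₀ hbr (by norm_num)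
    have : 1 / (b : ℝ) ^ 2 < 1 := by rw [div_lt_one (by positivity)]; exact h3
    linarith
  set θ : ℝ := 1 - 1 / (b : ℝ) ^ 2
  have h2 := tendsto_pow_const_mul_const_pow_of_abs_lt_one 8 (r := θ)
    (by rw [abs_of_nonneg h0]; exact h1)
  have h3 := (h2.comp (tendsto_add_atTop_nat 1)).const_mul ((b : ℝ) / θ)
  rw [mul_zero] at h3
  refine h3.congr fun L => ?_
  simp only [Function.comp]
  push_cast
  rw [pow_succ θ L]
  field_simp

/-- the error term -/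
noncomputable def err (b k : ℕ) : ℝ :=
  (1 - 1 / (b : ℝ)) ^ k +
      ((Nat.sqrt (Nat.sqrt k) : ℕ) : ℝ) * (b : ℝ) ^ (Nat.sqrt (Nat.sqrt k)) *
        (1 - 1 / (b : ℝ) ^ 3) ^ ((Nat.sqrt (Nat.sqrt k)) ^ 2) +
      (k : ℝ) ^ 2 * (b : ℝ) * (1 - 1 / (b : ℝ) ^ 2) ^ (Nat.sqrt (Nat.sqrt k)) +
      (1 / (b : ℝ)) ^ (3 * k / 4 - k / 4)

theorem tendsto_err {b : ℕ} (hb : 2 ≤ b) : Tendsto (fun k => err b k) atTop (𝓝 0) := by
  have hbr : (1 : ℝ) < b := by exact_mod_cast (by omega : 1 < b)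
  have h1 : Tendsto (fun k : ℕ => (1 - 1 / (b : ℝ)) ^ k) atTop (𝓝 0) := by
    obtain ⟨h0, h1⟩ := theta_bounds (b := b) (e := 1) hb (by omega)
    rw [pow_one] at h0 h1
    exact tendsto_pow_atTop_nhds_zero_of_lt_one h0 h1
  have h2 := (tendsto_term2 hb).comp tendsto_rt
  have h3 : Tendsto (fun k : ℕ => (k : ℝ) ^ 2 * (b : ℝ) *
      (1 - 1 / (b : ℝ) ^ 2) ^ (Nat.sqrt (Nat.sqrt k))) atTop (𝓝 0) := by
    obtain ⟨h0, h1⟩ := theta_bounds (b := b) (e := 2) hb (by omega)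
    refine squeeze_zero' (Eventually.of_forall fun k => by positivity)
      (Eventually.of_forall fun k => ?_) ((tendsto_term3 hb).comp tendsto_rt)
    simp only [Function.comp]
    have h4 : (k : ℝ) ≤ (((Nat.sqrt (Nat.sqrt k) : ℕ) : ℝ) + 1) ^ 4 := by
      exact_mod_cast (lt_rt_pow k).le
    have h5 : (k : ℝ) ^ 2 ≤ (((Nat.sqrt (Nat.sqrt k) : ℕ) : ℝ) + 1) ^ 8 := by
      calc (k : ℝ) ^ 2 ≤ ((((Nat.sqrt (Nat.sqrt k) : ℕ) : ℝ) + 1) ^ 4) ^ 2 :=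
            pow_le_pow_left₀ (Nat.cast_nonneg _) h4 2
        _ = _ := by ring
    exact mul_le_mul_of_nonneg_right (mul_le_mul_of_nonneg_right h5 (by positivity))
      (by positivity)
  have h4 : Tendsto (fun k : ℕ => (1 / (b : ℝ)) ^ (3 * k / 4 - k / 4)) atTop (𝓝 0) := by
    have h5 : Tendsto (fun k : ℕ => 3 * k / 4 - k / 4) atTop atTop :=
      tendsto_atTop_atTop.2 fun n => ⟨4 * n + 4, fun k hk => by omega⟩
    have h6 : Tendsto (fun j : ℕ => (1 / (b : ℝ)) ^ j) atTop (𝓝 0) :=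
      tendsto_pow_atTop_nhds_zero_of_lt_one (by positivity)
        (by rw [div_lt_one (by linarith)]; exact hbr)
    exact h6.comp h5
  have := ((h1.add h2).add h3).add h4
  simpa [err, Function.comp] using this

theorem bad_le {b k : ℕ} (hb : 2 ≤ b) (hk : 16 ≤ k) :
    ((Bad b k).card : ℝ) ≤ err b k * (b : ℝ) ^ k := by
  refine bad_card hb (by omega) ?_ (rt_pow_le k)
  have h1 := rt_pow_le k
  have h2 : 2 ≤ Nat.sqrt (Nat.sqrt k) := by
    rw [Nat.le_sqrt, Nat.le_sqrt]; omega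
  set L := Nat.sqrt (Nat.sqrt k)
  calc 4 * L ≤ L ^ 3 * L := by
        refine Nat.mul_le_mul_right _ ?_
        calc 4 ≤ 2 ^ 3 := by norm_num
          _ ≤ L ^ 3 := Nat.pow_le_pow_left h2 3
    _ = L ^ 4 := by ring
    _ ≤ k := h1

/-- the set of lunar primes with `k` digits, as in the frozen statement -/
def Pr (b k : ℕ) : Set ℕ :=
  {n : ℕ | b ^ (k - 1) ≤ n ∧ n < b ^ k ∧ n ≠ b - 1 ∧
              ∀ a c : ℕ,
                (∀ m : ℕ, n / b ^ m % b =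
                  (Finset.range (m + 1)).sup
                    (fun i => min (a / b ^ i % b) (c / b ^ (m - i) % b))) →
                a = b - 1 ∨ c = b - 1}

theorem pr_bounds {b k : ℕ} (hb : 2 ≤ b) (hk : 3 ≤ k) :
    (Pr b k).ncard ≤ (b - 1) ^ 2 * b ^ (k - 2) ∧
      (b - 1) ^ 2 * b ^ (k - 2) ≤ (Pr b k).ncard + (Bad b k).card := by
  classical
  obtain ⟨K, rfl⟩ : ∃ K, k = K + 2 := ⟨k - 2, by omega⟩
  have hk1 : K + 2 - 1 = K + 1 := rfl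
  have hk2 : K + 2 - 2 = K := rfl
  rw [hk2, ← card_good (K := K) hb]
  set G := (Finset.Ico (b ^ (K + 1)) (b ^ (K + 2))).filter (fun n => ¬ b ∣ n)
  have h1 : Pr b (K + 2) ⊆ (G : Set ℕ) := by
    intro n hn
    obtain ⟨h2, h3, _, h4⟩ := hn
    rw [Finset.mem_coe, Finset.mem_filter, Finset.mem_Ico]
    refine ⟨⟨h2, h3⟩, fun hd => not_prime_of_dvd hb hk h2 hd h4⟩
  have h2 : (G : Set ℕ) ⊆ Pr b (K + 2) ∪ (Bad b (K + 2) : Set ℕ) := by
    intro n hn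
    rw [Finset.mem_coe, Finset.mem_filter, Finset.mem_Ico] at hn
    obtain ⟨⟨h3, h4⟩, h5⟩ := hn
    by_cases h6 : ∀ a c : ℕ,
                (∀ m : ℕ, n / b ^ m % b =
                  (Finset.range (m + 1)).sup
                    (fun i => min (a / b ^ i % b) (c / b ^ (m - i) % b))) →
                a = b - 1 ∨ c = b - 1
    · left
      refine ⟨h3, h4, ?_, h6⟩
      have h7 : b ^ 1 ≤ b ^ (K + 1) := Nat.pow_le_pow_right (by omega) (by omega)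
      rw [pow_one] at h7
      omega
    · right
      push Not at h6
      obtain ⟨a, c, h7, h8, h9⟩ := h6
      rw [Finset.mem_coe, Bad, Finset.mem_filter, Finset.mem_range]
      exact ⟨h4, h3, h5, a, c, h8, h9, LP_of_eq h7⟩
  constructor
  · have := Set.ncard_le_ncard h1 (Finset.finite_toSet G)
    rwa [Set.ncard_coe_finset] at this
  · have hfin : (Pr b (K + 2)).Finite := (Finset.finite_toSet G).subset h1
    have h3 := Set.ncard_le_ncard h2 (hfin.union (Finset.finite_toSet _))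
    rw [Set.ncard_coe_finset] at h3
    refine h3.trans ((Set.ncard_union_le _ _).trans ?_)
    rw [Set.ncard_coe_finset]

theorem main (b : ℕ) (hb : 2 ≤ b) :
    Asymptotics.IsEquivalent Filter.atTop (fun k : ℕ => ((Pr b k).ncard : ℝ))
        (fun k : ℕ => ((b : ℝ) - 1) ^ 2 * (b : ℝ) ^ ((k : ℤ) - 2)) := by
  have hbr : (1 : ℝ) < b := by exact_mod_cast (by omega : 1 < b)
  rw [Asymptotics.IsEquivalent, Asymptotics.isLittleO_iff]
  intro c hc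
  have hc' : 0 < c * (((b : ℝ) - 1) ^ 2 / (b : ℝ) ^ 2) := by
    have : 0 < (b : ℝ) - 1 := by linarith
    positivity
  filter_upwards [(tendsto_err hb).eventually_lt_const hc', eventually_ge_atTop 16] with k h1 h2
  obtain ⟨h3, h4⟩ := pr_bounds hb (by omega : 3 ≤ k)
  have h5 := bad_le hb h2
  have hv : ((b : ℝ) - 1) ^ 2 * (b : ℝ) ^ ((k : ℤ) - 2) =
      (((b - 1) ^ 2 * b ^ (k - 2) : ℕ) : ℝ) := by
    have h6 : ((k : ℤ) - 2) = ((k - 2 : ℕ) : ℤ) := by omega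
    rw [h6, zpow_natCast]
    push_cast [Nat.cast_sub (by omega : 1 ≤ b)]
    ring
  have hv2 : ((b : ℝ) - 1) ^ 2 * (b : ℝ) ^ ((k : ℤ) - 2) =
      (((b : ℝ) - 1) ^ 2 / (b : ℝ) ^ 2) * (b : ℝ) ^ k := by
    have h6 : ((k : ℤ) - 2) = ((k - 2 : ℕ) : ℤ) := by omega
    rw [h6, zpow_natCast]
    have h7 : (b : ℝ) ^ k = (b : ℝ) ^ (k - 2) * (b : ℝ) ^ 2 := by
      rw [← pow_add]; congr 1; omega
    rw [h7]
    field_simp
  have hpos : 0 ≤ ((b : ℝ) - 1) ^ 2 * (b : ℝ) ^ ((k : ℤ) - 2) := by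
    rw [hv]; positivity
  simp only [Pi.sub_apply]
  rw [Real.norm_eq_abs, Real.norm_eq_abs, abs_of_nonneg hpos, abs_le]
  have h3' : ((Pr b k).ncard : ℝ) ≤ ((b : ℝ) - 1) ^ 2 * (b : ℝ) ^ ((k : ℤ) - 2) := by
    rw [hv]; exact_mod_cast h3
  have h4' : ((b : ℝ) - 1) ^ 2 * (b : ℝ) ^ ((k : ℤ) - 2) ≤
      ((Pr b k).ncard : ℝ) + ((Bad b k).card : ℝ) := by
    rw [hv]; exact_mod_cast h4
  have h8 : ((Bad b k).card : ℝ) ≤ c * (((b : ℝ) - 1) ^ 2 * (b : ℝ) ^ ((k : ℤ) - 2)) := by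
    rw [hv2]
    calc ((Bad b k).card : ℝ) ≤ err b k * (b : ℝ) ^ k := h5
      _ ≤ (c * (((b : ℝ) - 1) ^ 2 / (b : ℝ) ^ 2)) * (b : ℝ) ^ k :=
          mul_le_mul_of_nonneg_right h1.le (by positivity)
      _ = _ := by ring
  have h9 : 0 ≤ c * (((b : ℝ) - 1) ^ 2 * (b : ℝ) ^ ((k : ℤ) - 2)) := by positivity
  constructor <;> linarith

end Pool.Agent.H180R3.Lunar
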