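import Pool.Agent.H336R4.PF.Defs

set_option autoImplicit false

open Finset Filter Topology LSeries

namespace Pool.Agent.H180R3.PFT

open Pool.Agent.H336R4.PF

/-- rapidly decreasing coefficients -/
def Rap (a : ℕ → ℂ) : Prop := ∀ R : ℝ, 0 < R → ∃ C : ℝ, ∀ n : ℕ, 1 ≤ n → ‖a n‖ ≤ C * R ^ n

lemma Rap.summable {a : ℕ → ℂ} (h : Rap a) (s : ℂ) : LSeriesSummable a s := by
  obtain ⟨C, hC⟩ := h (1 / 2) (by norm_num)
  have hC0 : 0 ≤ C := by
    have := (norm_nonneg _).trans (hC 1 le_rfl)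
    linarith
  set k : ℕ := ⌈|s.re|⌉₊ with hk
  have hsum : Summable fun n : ℕ => C * ((n : ℝ) ^ k * (1 / 2 : ℝ) ^ n) :=
    (summable_pow_mul_geometric_of_norm_lt_one k (by norm_num)).mul_left C
  refine Summable.of_norm (hsum.of_nonneg_of_le (fun _ => norm_nonneg _) fun n => ?_)
  rw [norm_term_eq]
  split_ifs with hn
  · positivity
  · have hn1 : 1 ≤ n := Nat.one_le_iff_ne_zero.2 hn
    have hn1' : (1:ℝ) ≤ n := by exact_mod_cast hn1
    rw [div_eq_mul_inv, ← Real.rpow_neg (by positivity)]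
    have h1 : (n : ℝ) ^ (-s.re) ≤ (n : ℝ) ^ k := by
      rw [← Real.rpow_natCast]
      refine Real.rpow_le_rpow_of_exponent_le hn1' ?_
      exact (neg_le_abs _).trans (Nat.le_ceil _)
    calc ‖a n‖ * (n:ℝ) ^ (-s.re) ≤ (C * (1 / 2) ^ n) * (n:ℝ) ^ k :=
          mul_le_mul (hC n hn1) h1 (by positivity) (by positivity)
      _ = _ := by ring

lemma Rap.abscissa {a : ℕ → ℂ} (h : Rap a) : abscissaOfAbsConv a = ⊥ := by
  rw [eq_bot_iff]
  exact abscissaOfAbsConv_le_of_forall_lt_LSeriesSummable' fun y _ => h.summable _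

lemma Rap.differentiable {a : ℕ → ℂ} (h : Rap a) : Differentiable ℂ (LSeries a) := by
  have := LSeries_differentiableOn a
  rw [h.abscissa] at this
  have e : {s : ℂ | (⊥ : EReal) < s.re} = Set.univ := by
    ext s; simp
  rw [e] at this
  exact differentiableOn_univ.1 this

/-- `G = (s-1)^m F` everywhere -/
lemma Rap.G_eq {a : ℕ → ℂ} (h : Rap a) {m : ℕ} {G : ℂ → ℂ} (hG : Cont a m G) (s : ℂ) :
    G s = (s - 1) ^ m * LSeries a s := by
  have h1 : AnalyticOnNhd ℂ G Set.univ := Complex.analyticOnNhd_univ_iff_differentiable.2 hG.1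
  have hd : Differentiable ℂ fun s : ℂ => (s - 1) ^ m * LSeries a s :=
    ((differentiable_id.sub_const 1).pow m).mul h.differentiable
  have h2 : AnalyticOnNhd ℂ (fun s : ℂ => (s - 1) ^ m * LSeries a s) Set.univ :=
    Complex.analyticOnNhd_univ_iff_differentiable.2 hd
  have h3 : G =ᶠ[𝓝 2] fun s : ℂ => (s - 1) ^ m * LSeries a s := by
    have : {s : ℂ | 1 < s.re} ∈ 𝓝 (2:ℂ) :=
      (isOpen_lt continuous_const Complex.continuous_re).mem_nhds (by simp)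
    filter_upwards [this] with s hs
    exact hG.2.2 s hs
  exact congr_fun (h1.eq_of_eventuallyEq h2 h3) s

/-- the functional equation for `F` -/
lemma Rap.fe {a : ℕ → ℂ} (h : Rap a) {m : ℕ} {G : ℂ → ℂ} (hG : Cont a m G)
    (hX : TaskFEX) {Q : ℝ} {k : ℕ} {lam : Fin k → ℝ} {μ : Fin k → ℂ} {ω : ℂ} (hQ : 0 < Q)
    (hFE : FE m G Q k lam μ ω) {s : ℂ} (h0 : s ≠ 0) (h1 : s ≠ 1) :
    (Q : ℂ) ^ s * (∏ j, (Complex.Gamma ((lam j : ℂ) * (1 - s) + starRingEnd ℂ (μ j)))⁻¹) * LSeries a s =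
    ω * ((Q : ℂ) ^ (1 - s) * (∏ j, (Complex.Gamma ((lam j : ℂ) * s + μ j))⁻¹)
      * starRingEnd ℂ (LSeries a (1 - starRingEnd ℂ s))) := by
  have key := hX m G hG.1 Q k lam μ ω hQ hFE s
  rw [h.G_eq hG s, h.G_eq hG (1 - starRingEnd ℂ s), map_mul, map_pow] at key
  have e1 : starRingEnd ℂ (1 - starRingEnd ℂ s - 1) = -s := by
    simp
  rw [e1] at key
  have hne : (s - 1) ^ m * s ^ m ≠ 0 := mul_ne_zero (pow_ne_zero _ (sub_ne_zero.2 h1)) (pow_ne_zero _ h0)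
  apply mul_right_cancel₀ hne
  have e2 : (-1 : ℂ) ^ m * (-s) ^ m = s ^ m := by
    rw [← mul_pow]; ring_nf
  calc _ = (Q : ℂ) ^ s * (∏ j, (Complex.Gamma ((lam j : ℂ) * (1 - s) + starRingEnd ℂ (μ j)))⁻¹) *
        ((s - 1) ^ m * LSeries a s * s ^ m) := by ring
    _ = _ := key
    _ = ω * ((Q : ℂ) ^ (1 - s) * (∏ j, (Complex.Gamma ((lam j : ℂ) * s + μ j))⁻¹)
      * starRingEnd ℂ (LSeries a (1 - starRingEnd ℂ s))) * ((s - 1) ^ m * ((-1 : ℂ) ^ m * (-s) ^ m)) := by ring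
    _ = _ := by rw [e2]

/-- absolute sum -/
noncomputable def AS (a : ℕ → ℂ) (x : ℝ) : ℝ := ∑' n, ‖term a (x : ℂ) n‖

lemma AS_nonneg (a : ℕ → ℂ) (x : ℝ) : 0 ≤ AS a x := tsum_nonneg fun _ => norm_nonneg _

lemma Rap.norm_le {a : ℕ → ℂ} (h : Rap a) {s : ℂ} {x : ℝ} (hx : x ≤ s.re) :
    ‖LSeries a s‖ ≤ AS a x := by
  have h1 : Summable fun n => ‖term a s n‖ := (h.summable s).norm
  refine (norm_tsum_le_tsum_norm h1).trans ?_
  exact Summable.tsum_le_tsum (fun n => norm_term_le_of_re_le_re a (by simpa using hx) n) h1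
    (h.summable x).norm

end Pool.Agent.H180R3.PFT
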