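import Pool.Agent.H180R3.PFT1

set_option autoImplicit false

open Finset Filter Topology LSeries

namespace Pool.Agent.H180R3.PFT

open Pool.Agent.H336R4.PF

lemma norm_term_zero (a : ℕ → ℂ) (n : ℕ) : ‖term a ((0:ℝ):ℂ) n‖ = if n = 0 then 0 else ‖a n‖ := by
  rw [norm_term_eq]; simp

lemma term_differentiable (a : ℕ → ℂ) (n : ℕ) : Differentiable ℂ fun s => term a s n :=
  fun s => (LSeries.hasDerivAt_term a n s).differentiableAt

/-- Coefficients beyond `Q^2` vanish when there are no Gamma factors. -/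
theorem coeff_zero {a : ℕ → ℂ} (h : Rap a) {Q : ℝ} (hQ : 0 < Q) {ω : ℂ} (hω : ‖ω‖ = 1)
    (hfe : ∀ s : ℂ, s ≠ 0 → s ≠ 1 → (Q : ℂ) ^ s * LSeries a s =
      ω * ((Q : ℂ) ^ (1 - s) * starRingEnd ℂ (LSeries a (1 - starRingEnd ℂ s))))
    {n : ℕ} (hn : Q ^ 2 < n) : a n = 0 := by
  -- left bound for `F`
  have hleft : ∀ s : ℂ, s ≠ 0 → s.re ≤ 0 → ‖LSeries a s‖ ≤ Q * AS a 0 * (Q ^ 2) ^ (-s.re) := by
    intro s hs hre
    have h1 : s ≠ 1 := by
      rintro rfl
      simp at hre
      linarith
    have e := congrArg norm (hfe s hs h1)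
    rw [norm_mul, norm_mul, norm_mul, hω, one_mul, Complex.norm_cpow_eq_rpow_re_of_pos hQ,
      Complex.norm_cpow_eq_rpow_re_of_pos hQ, RCLike.norm_conj] at e
    have h2 : ‖LSeries a (1 - starRingEnd ℂ s)‖ ≤ AS a 0 := h.norm_le (by simp; linarith)
    have h3 : Q ^ s.re * ‖LSeries a s‖ ≤ Q ^ (1 - s.re) * AS a 0 := by
      rw [e]
      have : (1 - s).re = 1 - s.re := by simp
      rw [this]
      exact mul_le_mul_of_nonneg_left h2 (by positivity)
    have h4 : Q * AS a 0 * (Q ^ 2) ^ (-s.re) * Q ^ s.re = Q ^ (1 - s.re) * AS a 0 := by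
      have e1 : (Q ^ 2) ^ (-s.re) = Q ^ (-2 * s.re) := by
        rw [← Real.rpow_natCast, ← Real.rpow_mul hQ.le]; ring_nf
      have e2 : Q ^ (1 - s.re) = Q * Q ^ (-2 * s.re) * Q ^ s.re := by
        nth_rewrite 2 [← Real.rpow_one Q]
        rw [← Real.rpow_add hQ, ← Real.rpow_add hQ]; ring_nf
      rw [e1, e2]; ring
    have h5 : ‖LSeries a s‖ * Q ^ s.re ≤ Q * AS a 0 * (Q ^ 2) ^ (-s.re) * Q ^ s.re := by
      rw [h4]; linarith
    exact le_of_mul_le_mul_right h5 (by positivity)
  set M : ℕ := ⌊Q ^ 2⌋₊ with hM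
  set N : ℕ := M + 1 with hN
  have hNQ : Q ^ 2 < N := by rw [hN]; push_cast; exact Nat.lt_floor_add_one _
  have hN0 : (0:ℝ) < N := by positivity
  set a' : ℕ → ℂ := fun n => if n < N then 0 else a n with ha'
  have hrap' : Rap a' := by
    intro R hR
    obtain ⟨C, hC⟩ := h R hR
    refine ⟨C, fun n hn => ?_⟩
    have := hC n hn
    rw [ha']
    simp only
    split_ifs
    · rw [norm_zero]; exact (norm_nonneg _).trans this
    · exact this
  have hsplit : ∀ s, LSeries a' s = LSeries a s - ∑ n ∈ range N, term a s n := by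
    intro s
    have h1 : ∀ n, term a' s n = term a s n - (if n ∈ range N then term a s n else 0) := by
      intro n
      rw [term_def, term_def, ha']
      by_cases h0 : n = 0
      · simp [h0]
      · by_cases h1 : n < N
        · simp [h0, h1]
        · simp [h0, h1]
    rw [LSeries, LSeries, tsum_congr h1, Summable.tsum_sub (h.summable s)
      (summable_of_finite_support ((range N).finite_toSet.subset fun n hn => by
        by_contra hc; simp only [Function.mem_support] at hn; apply hn; rw [if_neg]; exact hc))]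
    congr 1
    rw [tsum_eq_sum (s := range N) fun n hn => if_neg hn]
    exact sum_congr rfl fun n hn => if_pos hn
  set r : ℝ := max (Q ^ 2) M with hr
  have hr0 : 0 < r := lt_of_lt_of_le (by positivity) (le_max_left _ _)
  have hrN : r < N := by
    rw [hr, max_lt_iff]
    refine ⟨hNQ, ?_⟩
    rw [hN]; push_cast; linarith
  set K : ℝ := (Q + 1) * AS a 0 with hK
  have hAS := AS_nonneg a 0
  have hK0 : 0 ≤ K := by positivity
  have hb1 : ∀ s : ℂ, s ≠ 0 → s.re ≤ 0 → ‖LSeries a' s‖ ≤ K * r ^ (-s.re) := by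
    intro s hs hre
    rw [hsplit]
    refine (norm_sub_le _ _).trans ?_
    have h1 : ‖LSeries a s‖ ≤ Q * AS a 0 * r ^ (-s.re) := by
      refine (hleft s hs hre).trans ?_
      refine mul_le_mul_of_nonneg_left ?_ (by positivity)
      exact Real.rpow_le_rpow (by positivity) (le_max_left _ _) (by linarith)
    have h2 : ‖∑ n ∈ range N, term a s n‖ ≤ AS a 0 * r ^ (-s.re) := by
      refine (norm_sum_le _ _).trans ?_
      have h3 : ∀ n ∈ range N, ‖term a s n‖ ≤ ‖term a ((0:ℝ):ℂ) n‖ * r ^ (-s.re) := by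
        intro n hn
        rw [norm_term_zero, norm_term_eq]
        split_ifs with h0
        · simp
        · rw [div_eq_mul_inv, ← Real.rpow_neg (by positivity)]
          refine mul_le_mul_of_nonneg_left ?_ (norm_nonneg _)
          refine Real.rpow_le_rpow (by positivity) ?_ (by linarith)
          rw [mem_range] at hn
          have : (n:ℝ) ≤ M := by
            have : n ≤ M := by omega
            exact_mod_cast this
          exact this.trans (le_max_right _ _)
      refine (sum_le_sum h3).trans ?_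
      rw [← sum_mul]
      refine mul_le_mul_of_nonneg_right ?_ (by positivity)
      exact (h.summable _).norm.sum_le_tsum _ fun _ _ => norm_nonneg _
    calc _ ≤ Q * AS a 0 * r ^ (-s.re) + AS a 0 * r ^ (-s.re) := add_le_add h1 h2
      _ = _ := by rw [hK]; ring
  set D : ℂ → ℂ := fun s => LSeries a' s * (N : ℂ) ^ s with hD
  have hNc : (N : ℂ) ≠ 0 := by exact_mod_cast (Nat.succ_ne_zero M)
  have hDd : Differentiable ℂ D :=
    hrap'.differentiable.mul (differentiable_id.const_cpow (Or.inl hNc))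
  have hNnorm : ∀ s : ℂ, ‖(N : ℂ) ^ s‖ = (N : ℝ) ^ s.re := fun s => by
    have := Complex.norm_cpow_eq_rpow_re_of_pos hN0 s
    simpa using this
  have hDright : ∀ s : ℂ, 0 ≤ s.re → ‖D s‖ ≤ AS a' 0 := by
    intro s hre
    rw [hD]
    simp only
    rw [norm_mul, hNnorm]
    have h1 : Summable fun n => ‖term a' s n‖ := (hrap'.summable s).norm
    have h2 : ‖LSeries a' s‖ * (N:ℝ) ^ s.re ≤ ∑' n, ‖term a' s n‖ * (N:ℝ) ^ s.re := by
      rw [tsum_mul_right]
      exact mul_le_mul_of_nonneg_right (norm_tsum_le_tsum_norm h1) (by positivity)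
    refine h2.trans ?_
    refine Summable.tsum_le_tsum (fun n => ?_) (h1.mul_right _) (hrap'.summable _).norm
    rw [norm_term_zero, norm_term_eq]
    split_ifs with h0
    · simp
    · by_cases hnN : n < N
      · have : a' n = 0 := if_pos hnN
        simp [this]
      · have hle : (N:ℝ) ≤ n := by exact_mod_cast not_lt.1 hnN
        rw [div_mul_eq_mul_div, div_le_iff₀ (Real.rpow_pos_of_pos (lt_of_lt_of_le hN0 hle) _)]
        exact mul_le_mul_of_nonneg_left (Real.rpow_le_rpow hN0.le hle hre) (norm_nonneg _)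
  have hDleft : ∀ s : ℂ, s ≠ 0 → s.re ≤ 0 → ‖D s‖ ≤ K * (r / N) ^ (-s.re) := by
    intro s hs hre
    rw [hD]
    simp only
    rw [norm_mul, hNnorm]
    calc ‖LSeries a' s‖ * (N:ℝ) ^ s.re ≤ (K * r ^ (-s.re)) * (N:ℝ) ^ s.re :=
          mul_le_mul_of_nonneg_right (hb1 s hs hre) (by positivity)
      _ = _ := by
          rw [Real.div_rpow hr0.le hN0.le, Real.rpow_neg hN0.le, div_inv_eq_mul]; ring
  have hρ1 : r / N < 1 := (div_lt_one hN0).2 hrN
  have hρ0 : 0 < r / N := by positivity
  have hbdd : Bornology.IsBounded (Set.range D) := by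
    rw [isBounded_iff_forall_norm_le]
    refine ⟨max (AS a' 0) K, ?_⟩
    rintro _ ⟨s, rfl⟩
    by_cases hre : 0 ≤ s.re
    · exact (hDright s hre).trans (le_max_left _ _)
    · push Not at hre
      have hs : s ≠ 0 := by rintro rfl; simp at hre
      refine (hDleft s hs hre.le).trans (le_trans ?_ (le_max_right _ _))
      exact mul_le_of_le_one_right hK0 (Real.rpow_le_one hρ0.le hρ1.le (by linarith))
  have hD0 : ∀ s, D s = 0 := by
    intro s
    have h1 : ∀ n : ℕ, ‖D s‖ ≤ K * (r / N) ^ (n + 1) := by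
      intro n
      have e := hDd.apply_eq_apply_of_bounded hbdd s (-((n + 1 : ℕ) : ℂ))
      rw [e]
      have h2 := hDleft (-((n + 1 : ℕ) : ℂ)) (by
        rw [neg_ne_zero]; exact_mod_cast Nat.succ_ne_zero n) (by simp; linarith [(Nat.cast_nonneg n : (0:ℝ) ≤ n)])
      refine h2.trans (le_of_eq ?_)
      congr 1
      rw [← Real.rpow_natCast]
      congr 1
      simp
    have h2 : Tendsto (fun n : ℕ => K * (r / N) ^ (n + 1)) atTop (𝓝 0) := by
      have := ((tendsto_pow_atTop_nhds_zero_of_lt_one hρ0.le hρ1).comp (tendsto_add_atTop_nat 1)).const_mul K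
      simpa using this
    have h3 : ‖D s‖ ≤ 0 := ge_of_tendsto' h2 h1
    exact norm_le_zero_iff.1 h3
  have hL0 : ∀ s, LSeries a' s = 0 := by
    intro s
    have := hD0 s
    rw [hD] at this
    rcases mul_eq_zero.1 this with h1 | h1
    · exact h1
    · exact absurd (Complex.cpow_eq_zero_iff _ _ |>.1 h1).1 hNc
  have hnN : ¬ n < N := by
    intro hlt
    have : n ≤ M := by omega
    have : (n:ℝ) ≤ Q ^ 2 := (Nat.cast_le.2 this).trans (Nat.floor_le (by positivity))
    linarith
  have hn0 : n ≠ 0 := by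
    intro h0; apply hnN; rw [h0]; omega
  have := LSeries.eq_of_LSeries_eventually_eq (f := a') (g := 0)
    (by rw [hrap'.abscissa]; exact bot_lt_top) ((LSeriesSummable_zero (s := 0)).abscissaOfAbsConv_le.trans_lt (EReal.coe_lt_top _))
    (Eventually.of_forall fun x => by simp [hL0]) hn0
  rw [ha'] at this
  simpa [hnN] using this

end Pool.Agent.H180R3.PFT
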