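import Pool.Agent.H180R3.PFT3

set_option autoImplicit false

open Finset Filter Topology LSeries

namespace Pool.Agent.H180R3.PFT

open Pool.Agent.H336R4.PF

/-- a continuous real function `g` with `exp (2 i g)` constant is constant -/
lemma const_of_exp {g : ℝ → ℝ} (hg : Continuous g) {ω : ℂ}
    (h : ∀ t, Complex.exp (2 * (g t : ℂ) * Complex.I) = ω) (t u : ℝ) : g t = g u := by
  by_contra hne
  wlog hlt : g t < g u generalizing t u
  · exact this u t (Ne.symm hne) (lt_of_le_of_ne (not_lt.1 hlt) (Ne.symm hne))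
  set v := min (g u) (g t + 1) with hv
  have hv1 : g t < v := lt_min hlt (by linarith)
  have hv2 : v ≤ g u := min_le_left _ _
  have hv3 : v ≤ g t + 1 := min_le_right _ _
  obtain ⟨w, hw⟩ : v ∈ Set.range g := by
    have hc : IsPreconnected (Set.range g) := isPreconnected_range hg
    exact hc.ordConnected.out ⟨t, rfl⟩ ⟨u, rfl⟩ ⟨hv1.le, hv2⟩
  have e : Complex.exp (2 * (g w : ℂ) * Complex.I) = Complex.exp (2 * (g t : ℂ) * Complex.I) := by
    rw [h, h]
  rw [Complex.exp_eq_exp_iff_exists_int] at e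
  obtain ⟨n, hn⟩ := e
  have hn' : 2 * g w = 2 * g t + n * (2 * Real.pi) := by
    have := congrArg Complex.im hn
    simpa using this
  have hpi := Real.pi_gt_three
  have h1 : 0 < (n:ℝ) * Real.pi := by rw [hw] at hn'; linarith
  have h2 : (n:ℝ) * Real.pi ≤ 1 := by rw [hw] at hn'; linarith
  have hn0 : (0:ℝ) < n := by
    by_contra hc
    have := mul_nonpos_of_nonpos_of_nonneg (not_lt.1 hc) Real.pi_pos.le
    linarith
  have hn1 : (1:ℝ) ≤ n := by
    have : (0:ℤ) < n := by exact_mod_cast hn0
    exact_mod_cast this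
  nlinarith

/-- no Gamma factors: trivial -/
theorem trivial_of_noGamma {a : ℕ → ℂ} (h : Rap a) (ha1 : a 1 = 1) (hE : Eul a) {Q : ℝ} (hQ : 0 < Q)
    {ω : ℂ} (hω : ‖ω‖ = 1)
    (hfe : ∀ s : ℂ, s ≠ 0 → s ≠ 1 → (Q : ℂ) ^ s * LSeries a s =
      ω * ((Q : ℂ) ^ (1 - s) * starRingEnd ℂ (LSeries a (1 - starRingEnd ℂ s))))
    {n : ℕ} (hn : 2 ≤ n) : a n = 0 := by
  obtain ⟨b, hbp, θ, hθ, C, hb, hexp⟩ := hE
  have hC : 0 ≤ C := by
    have := (norm_nonneg _).trans (hb 1 le_rfl)
    simpa using this
  have haabs : abscissaOfAbsConv a ≤ (1 : ℝ) := by rw [h.abscissa]; exact bot_le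
  have hcz : ∀ n : ℕ, Q ^ 2 < n → a n = 0 := fun n hn => coeff_zero h hQ hω hfe hn
  set P : ℕ := ⌊Q ^ 2⌋₊ with hP
  have hb1 : b 1 = 0 := hbp 1 not_isPrimePow_one
  have hsupp : ∀ n : ℕ, 1 ≤ n → b n ≠ 0 → ∃ p ∈ range (P + 1), p.Prime ∧ ∃ k : ℕ, p ^ k = n := by
    intro n hn1 hbn
    have hpp : IsPrimePow n := by
      by_contra hc; exact hbn (hbp n hc)
    rw [isPrimePow_nat_iff] at hpp
    obtain ⟨p, k, hp, hk, hpk⟩ := hpp
    refine ⟨p, ?_, hp, k, hpk⟩
    rw [mem_range]
    by_contra hc
    apply hbn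
    have hQp : Q ^ 2 < p := by
      have : P < p := by omega
      exact (Nat.floor_lt (by positivity)).1 this
    refine b_zero haabs ha1 hθ hb hexp ?_ ?_
    · rw [← hpk]
      calc 2 ≤ p := hp.two_le
        _ = p ^ 1 := (pow_one p).symm
        _ ≤ p ^ k := Nat.pow_le_pow_right hp.pos hk
    · intro d hd hd2
      rw [← hpk, Nat.dvd_prime_pow hp] at hd
      obtain ⟨i, -, rfl⟩ := hd
      apply hcz
      have hi : i ≠ 0 := by rintro rfl; simp at hd2
      have : p ≤ p ^ i := Nat.le_self_pow hi p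
      exact hQp.trans_le (by exact_mod_cast this)
  have hsum : ∀ s : ℂ, θ < s.re → LSeriesSummable b s := fun s hs => summable_b hC hb P hsupp hs
  have hbabs : abscissaOfAbsConv b ≤ (θ : EReal) :=
    abscissaOfAbsConv_le_of_forall_lt_LSeriesSummable fun y hy => hsum y (by simpa using hy)
  -- identity theorem
  set U : Set ℂ := {s : ℂ | θ < s.re} with hU
  have hUo : IsOpen U := isOpen_lt continuous_const Complex.continuous_re
  have hUc : IsPreconnected U := (convex_halfSpace_re_gt θ).isPreconnected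
  have hLb : AnalyticOnNhd ℂ (LSeries b) U := by
    refine (LSeries_analyticOnNhd b).mono fun s hs => ?_
    exact hbabs.trans_lt (by exact_mod_cast hs)
  have hid : Set.EqOn (LSeries a) (fun s => Complex.exp (LSeries b s)) U := by
    refine AnalyticOnNhd.eqOn_of_preconnected_of_eventuallyEq (z₀ := 2) ?_ hLb.cexp hUc ?_ ?_
    · exact (Complex.analyticOnNhd_univ_iff_differentiable.2 h.differentiable).mono (Set.subset_univ _)
    · show θ < (2:ℂ).re
      simp; linarith
    · have : {s : ℂ | 1 < s.re} ∈ 𝓝 (2:ℂ) :=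
        (isOpen_lt continuous_const Complex.continuous_re).mem_nhds (by simp)
      filter_upwards [this] with s hs
      exact hexp s hs
  -- the critical line
  have hline : ∀ t : ℝ, ((1 / 2 : ℂ) + t * Complex.I) ∈ U := by
    intro t
    show θ < ((1 / 2 : ℂ) + t * Complex.I).re
    simp; linarith
  set g : ℝ → ℝ := fun t => (LSeries b ((1 / 2 : ℂ) + t * Complex.I)).im + t * Real.log Q with hg
  have hgc : Continuous g := by
    have h1 : Continuous fun t : ℝ => LSeries b ((1 / 2 : ℂ) + t * Complex.I) := by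
      rw [continuous_iff_continuousAt]
      intro t
      have h2 : ContinuousAt (LSeries b) ((1 / 2 : ℂ) + t * Complex.I) := (hLb _ (hline t)).continuousAt
      have h3 : ContinuousAt (fun t : ℝ => (1 / 2 : ℂ) + t * Complex.I) t := by fun_prop
      exact ContinuousAt.comp (f := fun t : ℝ => (1 / 2 : ℂ) + t * Complex.I) h2 h3
    exact (Complex.continuous_im.comp h1).add (continuous_id.mul continuous_const)
  have hQc : (Q : ℂ) ≠ 0 := by exact_mod_cast hQ.ne'
  have hgexp : ∀ t, Complex.exp (2 * (g t : ℂ) * Complex.I) = ω := by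
    intro t
    set s : ℂ := (1 / 2 : ℂ) + t * Complex.I with hs
    have hs0 : s ≠ 0 := by
      intro hc
      have := congrArg Complex.re hc
      simp [hs] at this
    have hs1 : s ≠ 1 := by
      intro hc
      have := congrArg Complex.re hc
      simp [hs] at this
    have hrefl : 1 - starRingEnd ℂ s = s := by
      apply Complex.ext
      · simp [hs]; norm_num
      · simp [hs]
    have e := hfe s hs0 hs1
    rw [hrefl, hid (hline t), ← Complex.exp_conj] at e
    have hlogQ : Complex.log Q = (Real.log Q : ℂ) := (Complex.ofReal_log hQ.le).symm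
    simp only at e
    rw [Complex.cpow_def_of_ne_zero hQc, Complex.cpow_def_of_ne_zero hQc, hlogQ] at e
    rw [← Complex.exp_add, ← Complex.exp_add, ← hs] at e
    -- isolate ω
    have e2 : ω = Complex.exp (Real.log Q * s + LSeries b s) *
        Complex.exp (-(Real.log Q * (1 - s) + starRingEnd ℂ (LSeries b s))) := by
      rw [e, mul_assoc, ← Complex.exp_add, add_neg_cancel, Complex.exp_zero, mul_one]
    rw [e2, ← Complex.exp_add]
    congr 1
    have hL : LSeries b s = ((LSeries b s).re : ℂ) + (LSeries b s).im * Complex.I := (Complex.re_add_im _).symm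
    have hLc : starRingEnd ℂ (LSeries b s) = ((LSeries b s).re : ℂ) - (LSeries b s).im * Complex.I := by
      apply Complex.ext <;> simp
    rw [hLc]
    nth_rewrite 1 [hL]
    rw [hg]
    simp only [hs]
    push_cast
    ring
  have hconst : ∀ t, g t = g 0 := fun t => const_of_exp hgc hgexp t 0
  -- boundedness
  set B : ℝ := ∑' n, ‖term b ((1 / 2 : ℂ)) n‖ with hB
  have hbound : ∀ t : ℝ, |(LSeries b ((1 / 2 : ℂ) + t * Complex.I)).im| ≤ B := by
    intro t
    refine (Complex.abs_im_le_norm _).trans ?_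
    have h1 := (hsum _ (hline t)).norm
    refine (norm_tsum_le_tsum_norm h1).trans (le_of_eq ?_)
    refine tsum_congr fun n => ?_
    rw [norm_term_eq, norm_term_eq]
    simp
  have hlog : Real.log Q = 0 := by
    by_contra hc
    have hpos : 0 < |Real.log Q| := abs_pos.2 hc
    set t : ℝ := (|g 0| + B + 1) / |Real.log Q| with ht
    have h1 := hconst t
    have h2 : t * Real.log Q = g 0 - (LSeries b ((1 / 2 : ℂ) + t * Complex.I)).im := by
      rw [← h1, hg]; ring
    have hB0 : 0 ≤ B := (abs_nonneg _).trans (hbound 0)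
    have ht0 : 0 ≤ t := by positivity
    have h3 : |t * Real.log Q| ≤ |g 0| + B := by
      rw [h2]
      exact (abs_sub _ _).trans (add_le_add le_rfl (hbound t))
    rw [abs_mul, abs_of_nonneg ht0, ht, div_mul_cancel₀ _ hpos.ne'] at h3
    linarith
  have hQ1 : Q = 1 := by
    have := Real.exp_log hQ
    rw [hlog, Real.exp_zero] at this
    exact this.symm
  apply hcz
  rw [hQ1]
  have : (2:ℝ) ≤ n := by exact_mod_cast hn
  linarith

end Pool.Agent.H180R3.PFT
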