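import Pool.Agent.H180R3.PFT4

set_option autoImplicit false

open Finset Filter Topology LSeries

namespace Pool.Agent.H180R3.PFT

open Pool.Agent.H336R4.PF

lemma sinh_sq_le (x y : ℝ) : |Real.sinh y| ≤ ‖Complex.sin (x + y * Complex.I)‖ := by
  rw [Complex.sin_add_mul_I]
  have e : Complex.sin x * Complex.cosh y + Complex.cos x * Complex.sinh y * Complex.I =
      ((Real.sin x * Real.cosh y : ℝ) : ℂ) + ((Real.cos x * Real.sinh y : ℝ) : ℂ) * Complex.I := by
    push_cast; ring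
  rw [e]
  apply abs_le_of_sq_le_sq _ (norm_nonneg _)
  rw [← Complex.normSq_eq_norm_sq, Complex.normSq_add_mul_I]
  have h1 := Real.sin_sq_add_cos_sq x
  have h2 := Real.cosh_sq y
  rw [mul_pow, mul_pow, h2]
  nlinarith [sq_nonneg (Real.sin x)]

lemma tanh_lower {x : ℝ} (hx : 1 ≤ x) : Real.cosh x ≤ 2 * Real.sinh x := by
  rw [Real.cosh_eq, Real.sinh_eq]
  have h1 := Real.add_one_le_exp x
  have h2 : Real.exp (-x) * Real.exp x = 1 := by rw [← Real.exp_add]; simp
  have h3 := Real.exp_pos (-x)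
  nlinarith

lemma inv_aux {G X S p : ℝ} (hG : G ≠ 0) (hp : p ≠ 0) (h : G * X * S = p) : G⁻¹ = X * S / p := by
  rw [eq_div_iff hp, ← h]
  field_simp

/-- lower bound for one Gamma quotient -/
lemma ratio_lower (h1 : TaskP1) (h2 : TaskP2) {A A' : ℝ} (hA : 3 / 2 ≤ A) (hA' : 1 / 2 ≤ A') :
    ∃ c : ℝ, 0 < c ∧ ∀ y : ℝ, 1 ≤ y →
      c * y ≤ ‖Complex.Gamma (A - y * Complex.I)‖ * ‖(Complex.Gamma (1 - A' + y * Complex.I))⁻¹‖ := by
  have hG12 : 0 < Real.Gamma (1 / 2) := Real.Gamma_pos_of_pos (by norm_num)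
  have hG32 : 0 < Real.Gamma (3 / 2) := Real.Gamma_pos_of_pos (by norm_num)
  have hGA : 0 < Real.Gamma A := Real.Gamma_pos_of_pos (by linarith)
  have hGA' : 0 < Real.Gamma A' := Real.Gamma_pos_of_pos (by linarith)
  refine ⟨Real.Gamma A / Real.Gamma (3 / 2) * (Real.Gamma A' / Real.Gamma (1 / 2)) / 2, by positivity, ?_⟩
  intro y hy
  have hy0 : 0 < y := by linarith
  set g : ℝ := ‖Complex.Gamma (1 / 2 + (-y : ℝ) * Complex.I)‖ with hg
  have hg0 : 0 ≤ g := norm_nonneg _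
  have hgsq : g ^ 2 = Real.pi / Real.cosh (Real.pi * y) := by
    rw [hg, h2 (-y), mul_neg, Real.cosh_neg]
  -- first factor
  have a1 := h1 (3 / 2) A (-y) (by norm_num) hA
  have a2 : y * g ≤ ‖Complex.Gamma ((3 / 2 : ℝ) + (-y : ℝ) * Complex.I)‖ := by
    have hne : (1 / 2 + (-y : ℝ) * Complex.I : ℂ) ≠ 0 := by
      intro hc
      have := congrArg Complex.re hc
      simp at this
    have e : (((3 / 2 : ℝ) : ℂ) + (-y : ℝ) * Complex.I) = (1 / 2 + (-y : ℝ) * Complex.I) + 1 := by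
      push_cast; ring
    rw [e, Complex.Gamma_add_one _ hne, norm_mul]
    refine mul_le_mul_of_nonneg_right ?_ hg0
    have := Complex.abs_im_le_norm (1 / 2 + (-y : ℝ) * Complex.I : ℂ)
    simpa [abs_of_pos hy0] using this
  have a3 : Real.Gamma A / Real.Gamma (3 / 2) * (y * g) ≤ ‖Complex.Gamma (A - y * Complex.I)‖ := by
    have e : ((A : ℂ) + (-y : ℝ) * Complex.I) = A - y * Complex.I := by push_cast; ring
    rw [e] at a1
    rw [div_mul_eq_mul_div, div_le_iff₀ hG32]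
    calc Real.Gamma A * (y * g) ≤ Real.Gamma A * ‖Complex.Gamma ((3 / 2 : ℝ) + (-y : ℝ) * Complex.I)‖ :=
          mul_le_mul_of_nonneg_left a2 hGA.le
      _ ≤ _ := by rw [mul_comm]; exact a1
  -- second factor
  have b1 := h1 (1 / 2) A' (-y) (by norm_num) hA'
  have b2 : Real.Gamma A' / Real.Gamma (1 / 2) * g ≤ ‖Complex.Gamma (A' - y * Complex.I)‖ := by
    have e : ((A' : ℂ) + (-y : ℝ) * Complex.I) = A' - y * Complex.I := by push_cast; ring
    rw [e] at b1
    have e2 : ‖Complex.Gamma (((1 / 2 : ℝ) : ℂ) + (-y : ℝ) * Complex.I)‖ = g := by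
      rw [hg]; push_cast; rfl
    rw [e2] at b1
    rw [div_mul_eq_mul_div, div_le_iff₀ hG12]
    rw [mul_comm]; exact b1
  set z : ℂ := 1 - A' + y * Complex.I with hz
  have hrefl := Complex.Gamma_mul_Gamma_one_sub z
  have e1z : 1 - z = A' - y * Complex.I := by rw [hz]; ring
  have hpz : (Real.pi : ℂ) * z = ((Real.pi * (1 - A') : ℝ) : ℂ) + ((Real.pi * y : ℝ) : ℂ) * Complex.I := by
    rw [hz]; push_cast; ring
  have hsin : |Real.sinh (Real.pi * y)| ≤ ‖Complex.sin (Real.pi * z)‖ := by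
    rw [hpz]; exact sinh_sq_le _ _
  have hπ := Real.pi_gt_three
  have hpy : 1 ≤ Real.pi * y := by nlinarith
  have hsinh : 0 < Real.sinh (Real.pi * y) := Real.sinh_pos_iff.2 (by positivity)
  have hsin0 : 0 < ‖Complex.sin (Real.pi * z)‖ :=
    lt_of_lt_of_le (abs_pos.2 hsinh.ne') hsin
  have hsinne : Complex.sin (Real.pi * z) ≠ 0 := norm_pos_iff.1 hsin0
  have hprod : Complex.Gamma z * Complex.Gamma (1 - z) * Complex.sin (Real.pi * z) = Real.pi := by
    rw [hrefl]; field_simp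
  have hΓne : Complex.Gamma z ≠ 0 := by
    intro hc
    rw [hc] at hprod
    simp only [zero_mul] at hprod
    exact Real.pi_ne_zero (by exact_mod_cast hprod.symm)
  have b3 : ‖(Complex.Gamma z)⁻¹‖ = ‖Complex.Gamma (A' - y * Complex.I)‖ * ‖Complex.sin (Real.pi * z)‖ / Real.pi := by
    rw [norm_inv]
    have := congrArg norm hprod
    rw [norm_mul, norm_mul, e1z, Complex.norm_real, Real.norm_of_nonneg Real.pi_pos.le] at this
    have hn : ‖Complex.Gamma z‖ ≠ 0 := norm_ne_zero_iff.2 hΓne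
    exact inv_aux hn Real.pi_ne_zero this
  rw [b3]
  have hch : 0 < Real.cosh (Real.pi * y) := Real.cosh_pos _
  have b4 : Real.cosh (Real.pi * y) / 2 ≤ ‖Complex.sin (Real.pi * z)‖ := by
    have := tanh_lower hpy
    rw [abs_of_pos hsinh] at hsin
    linarith
  calc Real.Gamma A / Real.Gamma (3 / 2) * (Real.Gamma A' / Real.Gamma (1 / 2)) / 2 * y
      = (Real.Gamma A / Real.Gamma (3 / 2) * (y * g)) *
          ((Real.Gamma A' / Real.Gamma (1 / 2) * g) * (Real.cosh (Real.pi * y) / 2) / Real.pi) := by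
        have : (Real.Gamma A / Real.Gamma (3 / 2) * (y * g)) *
          ((Real.Gamma A' / Real.Gamma (1 / 2) * g) * (Real.cosh (Real.pi * y) / 2) / Real.pi) =
          Real.Gamma A / Real.Gamma (3 / 2) * (Real.Gamma A' / Real.Gamma (1 / 2)) / 2 * y *
            (g ^ 2 * Real.cosh (Real.pi * y) / Real.pi) := by ring
        rw [this, hgsq]
        have e3 : Real.pi / Real.cosh (Real.pi * y) * Real.cosh (Real.pi * y) / Real.pi = 1 := by
          field_simp
        rw [e3, mul_one]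
    _ ≤ ‖Complex.Gamma (A - y * Complex.I)‖ *
          (‖Complex.Gamma (A' - y * Complex.I)‖ * ‖Complex.sin (Real.pi * z)‖ / Real.pi) := by
        refine mul_le_mul a3 ?_ (by positivity) (norm_nonneg _)
        refine div_le_div_of_nonneg_right ?_ Real.pi_pos.le
        exact mul_le_mul b2 b4 (by positivity) (norm_nonneg _)

/-- tail of a rapidly convergent Dirichlet series -/
lemma Rap.tail {a : ℕ → ℂ} (h : Rap a) {N : ℕ} (hN : 1 ≤ N) {s : ℂ} (hs : 0 ≤ s.re) :
    ‖LSeries a s - ∑ n ∈ range N, term a s n‖ ≤ (N : ℝ) ^ (-s.re) * AS a 0 := by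
  have h1 := (h.summable s).sum_add_tsum_nat_add N
  have e : LSeries a s - ∑ n ∈ range N, term a s n = ∑' n, term a s (n + N) := by
    rw [LSeries, ← h1]; ring
  rw [e]
  have hN0 : (0:ℝ) < N := by exact_mod_cast hN
  have h2 : Summable fun n => ‖term a s (n + N)‖ := (summable_nat_add_iff N).2 (h.summable s).norm
  have h3 : Summable fun n => ‖term a ((0:ℝ):ℂ) (n + N)‖ := (summable_nat_add_iff N).2 (h.summable _).norm
  refine (norm_tsum_le_tsum_norm h2).trans ?_
  have h4 : ∑' n, ‖term a s (n + N)‖ ≤ ∑' n, (N : ℝ) ^ (-s.re) * ‖term a ((0:ℝ):ℂ) (n + N)‖ := by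
    refine Summable.tsum_le_tsum (fun n => ?_) h2 (h3.mul_left _)
    rw [norm_term_zero, norm_term_eq, if_neg (by omega), if_neg (by omega), mul_comm, div_eq_mul_inv,
      ← Real.rpow_neg (by positivity)]
    refine mul_le_mul_of_nonneg_left ?_ (norm_nonneg _)
    refine Real.rpow_le_rpow_of_nonpos hN0 ?_ (by linarith)
    push_cast; linarith [(Nat.cast_nonneg n : (0:ℝ) ≤ n)]
  refine h4.trans ?_
  rw [tsum_mul_left]
  refine mul_le_mul_of_nonneg_left ?_ (by positivity)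
  have h5 := (h.summable ((0:ℝ):ℂ)).norm.sum_add_tsum_nat_add N
  rw [AS, ← h5]
  have : 0 ≤ ∑ n ∈ range N, ‖term a ((0:ℝ):ℂ) n‖ := sum_nonneg fun _ _ => norm_nonneg _
  linarith

end Pool.Agent.H180R3.PFT
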